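import Pool.Agent.H815Z.CycDefs

/-! Conjugacy classes of `GL_∞(F)` are classified by the restriction to the range of `g - 1`. -/

set_option autoImplicit false
set_option linter.unusedSectionVars false

namespace Pool.Agent.H815Z.Bridge
open LinearMap Module
open Function (Injective Surjective)

variable {F : Type} [Field F]

lemma fd_conj {V W : Type} [AddCommGroup V] [Module F V] [FiniteDimensional F V]
    [AddCommGroup W] [Module F W] (π π' : V →ₗ[F] W) (ι ι' : W →ₗ[F] V)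
    (hπ : Surjective π) (hπ' : Surjective π') (hι : Injective ι) (hι' : Injective ι')
    (h : ∀ w, π (ι w) = π' (ι' w)) :
    ∃ z : V ≃ₗ[F] V, (∀ v, π' (z v) = π v) ∧ ∀ w, z (ι w) = ι' w := by
  obtain ⟨s, hs⟩ := π.exists_rightInverse_of_surjective (range_eq_top.2 hπ)
  obtain ⟨s', hs'⟩ := π'.exists_rightInverse_of_surjective (range_eq_top.2 hπ')
  have hs1 : ∀ w, π (s w) = w := fun w => LinearMap.congr_fun hs w
  have hs2 : ∀ w, π' (s' w) = w := fun w => LinearMap.congr_fun hs' w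
  have hdim : finrank F (ker π) = finrank F (ker π') := by
    have h1 := finrank_range_add_finrank_ker π
    have h2 := finrank_range_add_finrank_ker π'
    rw [range_eq_top.2 hπ] at h1
    rw [range_eq_top.2 hπ'] at h2
    omega
  obtain ⟨b⟩ := FiniteDimensional.nonempty_linearEquiv_of_finrank_eq hdim
  let j : ker (π ∘ₗ ι) →ₗ[F] ker π := (ι ∘ₗ (ker (π ∘ₗ ι)).subtype).codRestrict _ fun w => w.2
  let j' : ker (π ∘ₗ ι) →ₗ[F] ker π' := (ι' ∘ₗ (ker (π ∘ₗ ι)).subtype).codRestrict _ fun w => by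
    have := w.2
    rw [mem_ker] at this ⊢
    exact (h w).symm.trans this
  have hj : Injective (b.toLinearMap ∘ₗ j) := fun x y e =>
    Subtype.ext (hι (congrArg Subtype.val (b.injective e)))
  have hj' : Injective j' := fun x y e => Subtype.ext (hι' (congrArg Subtype.val e))
  obtain ⟨c, hc⟩ := Submodule.exists_linearEquiv_restrict_eq
    ((LinearEquiv.ofInjective _ hj).symm.trans (LinearEquiv.ofInjective _ hj'))
  have ha : ∀ w, c (b (j w)) = j' w := by
    intro w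
    have := hc (LinearEquiv.ofInjective _ hj w)
    simp only [LinearEquiv.trans_apply, LinearEquiv.symm_apply_apply] at this
    exact this.symm
  let r : V →ₗ[F] ker π := (LinearMap.id - s ∘ₗ π).codRestrict _ fun v => by simp [hs1]
  have hr : ∀ v, (r v : V) = v - s (π v) := fun _ => rfl
  let z1 : V →ₗ[F] V := (ker π').subtype ∘ₗ c.toLinearMap ∘ₗ b.toLinearMap ∘ₗ r + s' ∘ₗ π
  have hz : ∀ v, z1 v = (c (b (r v)) : V) + s' (π v) := fun _ => rfl
  have hz1 : ∀ v, π' (z1 v) = π v := fun v => by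
    rw [hz, map_add, hs2, (c (b (r v))).2, zero_add]
  have hz2 : ∀ v, z1 v = 0 → v = 0 := fun v hv => by
    have h1 : π v = 0 := by rw [← hz1, hv, map_zero]
    rw [hz, h1, map_zero, add_zero] at hv
    have h2 : r v = 0 := b.injective (c.injective (by
      rw [map_zero, map_zero]; exact Subtype.ext hv))
    have := hr v
    rw [h2, h1, map_zero, sub_zero] at this
    exact this.symm
  have hz3 : ∀ w, π (ι w) = 0 → z1 (ι w) = ι' w := fun w hw => by
    have : r (ι w) = j ⟨w, hw⟩ := Subtype.ext (by rw [hr, hw, map_zero, sub_zero]; rfl)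
    rw [hz, hw, map_zero, add_zero, this, ha]; rfl
  let δ : W →ₗ[F] ker π' := (ι' - z1 ∘ₗ ι).codRestrict _ fun w => by simp [hz1, h]
  have hδ : ∀ w, (δ w : V) = ι' w - z1 (ι w) := fun _ => rfl
  obtain ⟨t, ht⟩ := (π ∘ₗ ι).rangeRestrict.exists_rightInverse_of_surjective
    (range_rangeRestrict _)
  obtain ⟨δ', hδ'⟩ := LinearMap.exists_extend (δ ∘ₗ t)
  have hδ2 : ∀ w, δ' (π (ι w)) = δ w := fun w => by
    have h1 := LinearMap.congr_fun hδ' ((π ∘ₗ ι).rangeRestrict w)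
    have h2 := congrArg Subtype.val (LinearMap.congr_fun ht ((π ∘ₗ ι).rangeRestrict w))
    refine h1.trans ?_
    change δ (t _) = δ w
    rw [← sub_eq_zero, ← map_sub]
    refine Subtype.ext ?_
    rw [hδ, hz3, sub_self]; · rfl
    rw [map_sub, map_sub, sub_eq_zero]; exact h2
  let z2 : V →ₗ[F] V := z1 + (ker π').subtype ∘ₗ δ' ∘ₗ π
  have hz4 : ∀ v, z2 v = z1 v + δ' (π v) := fun _ => rfl
  have hz5 : ∀ v, π' (z2 v) = π v := fun v => by
    rw [hz4, map_add, hz1, (δ' (π v)).2, add_zero]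
  have hz6 : Injective z2 := (injective_iff_map_eq_zero _).2 fun v hv => by
    have h1 : π v = 0 := by rw [← hz5, hv, map_zero]
    rw [hz4, h1, map_zero] at hv
    exact hz2 v (by simpa using hv)
  refine ⟨LinearEquiv.ofInjectiveEndo z2 hz6, hz5, fun w => ?_⟩
  change z2 (ι w) = _
  rw [hz4, hδ2, hδ]; abel

lemma toEnd_mul (x y : GLinf F) (v : ℕ →₀ F) : toEnd (x * y) v = toEnd x (toEnd y v) := rfl
lemma toEnd_one (v : ℕ →₀ F) : toEnd (1 : GLinf F) v = v := rfl
lemma toEnd_inv_left (x : GLinf F) (v : ℕ →₀ F) : toEnd x⁻¹ (toEnd x v) = v := by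
  rw [← toEnd_mul, inv_mul_cancel, toEnd_one]
lemma toEnd_inv_right (x : GLinf F) (v : ℕ →₀ F) : toEnd x (toEnd x⁻¹ v) = v := by
  rw [← toEnd_mul, mul_inv_cancel, toEnd_one]
lemma toEnd_inj (x : GLinf F) : Injective (toEnd x) := fun u v h => by
  rw [← toEnd_inv_left x u, h, toEnd_inv_left]
lemma gl_ext {x y : GLinf F} (h : ∀ v, toEnd x v = toEnd y v) : x = y :=
  Subtype.ext (LinearEquiv.ext h)

noncomputable def sp (F : Type) [Field F] (n : ℕ) : (ℕ →₀ F) ≃ₗ[F] (Fin n →₀ F) × (ℕ →₀ F) :=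
  (Finsupp.domLCongr (finSumNatEquiv n).symm).trans (Finsupp.sumFinsuppLEquivProdFinsupp F)

lemma sp_fst (n : ℕ) (v : ℕ →₀ F) (i : Fin n) : (sp F n v).1 i = v i := by
  simp [sp]
lemma sp_snd (n : ℕ) (v : ℕ →₀ F) (j : ℕ) : (sp F n v).2 j = v (n + j) := by
  simp [sp]

lemma fix_tail {g : GLinf F} {n : ℕ}
    (h : ∀ i, n ≤ i → toEnd g (Finsupp.single i 1) = Finsupp.single i 1) (v : ℕ →₀ F)
    (hv : (sp F n v).1 = 0) : toEnd g v = v := by
  have h1 : v ∈ Finsupp.supported F F {i | n ≤ i} := by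
    rw [Finsupp.mem_supported']
    intro i hi
    have := sp_fst n v ⟨i, by simpa using hi⟩
    rw [hv] at this
    exact this.symm
  rw [Finsupp.supported_eq_span_single] at h1
  refine Submodule.span_induction (fun x hx => ?_) (map_zero _) (fun x y _ _ hx hy => ?_)
    (fun a x _ hx => ?_) h1
  · obtain ⟨i, hi, rfl⟩ := hx; exact h i hi
  · rw [map_add, hx, hy]
  · rw [map_smul, hx]

noncomputable abbrev WW (g : GLinf F) : Submodule F (ℕ →₀ F) := range (toEnd g - 1)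

lemma mem_WW (g : GLinf F) (v : ℕ →₀ F) : toEnd g v - v ∈ WW g := ⟨v, rfl⟩

instance fdWW (g : GLinf F) : FiniteDimensional F (WW g) := by
  obtain ⟨n, hn⟩ := g.2
  have : WW g ≤ range ((toEnd g - 1) ∘ₗ (sp F n).symm.toLinearMap ∘ₗ inl F _ _) := by
    rintro _ ⟨v, rfl⟩
    refine ⟨(sp F n v).1, ?_⟩
    have h1 := fix_tail (g := g) hn (v - (sp F n).symm ((sp F n v).1, 0)) (by simp)
    rw [map_sub] at h1
    simp only [comp_apply, inl_apply, LinearEquiv.coe_coe, LinearMap.sub_apply, Module.End.one_apply]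
    rw [sub_eq_sub_iff_sub_eq_sub] at h1 ⊢
    rw [← neg_sub, ← neg_sub v, sub_eq_sub_iff_sub_eq_sub.1 h1]
  exact Submodule.finiteDimensional_of_le this

lemma exists_block (g : GLinf F) : ∃ n0, ∀ n, n0 ≤ n → ∃ a : (Fin n →₀ F) →ₗ[F] (Fin n →₀ F),
    ∀ v, sp F n (toEnd g v) = (a (sp F n v).1, (sp F n v).2) := by
  obtain ⟨n1, hn1⟩ := g.2
  obtain ⟨S, hS⟩ := (Submodule.fg_iff_finiteDimensional (WW g)).2 inferInstance
  obtain ⟨n2, hn2⟩ := (S.biUnion Finsupp.support).exists_nat_subset_range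
  refine ⟨max n1 n2, fun n hn => ⟨fst F _ _ ∘ₗ (sp F n).toLinearMap ∘ₗ toEnd g ∘ₗ
    (sp F n).symm.toLinearMap ∘ₗ inl F _ _, fun v => ?_⟩⟩
  have h0 : ∀ w ∈ WW g, (sp F n w).2 = 0 := by
    intro w hw
    rw [← hS] at hw
    refine Submodule.span_induction (fun x hx => ?_) (by simp) (fun x y _ _ hx hy => ?_)
      (fun a x _ hx => ?_) hw
    · ext j
      rw [sp_snd]
      by_contra hj
      have := hn2 (Finset.mem_biUnion.2 ⟨x, hx, Finsupp.mem_support_iff.2 hj⟩)
      simp only [Finset.mem_range] at this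
      omega
    · simp [hx, hy]
    · simp [hx]
  have h1 := fix_tail (g := g) (n := n) (fun i hi => hn1 i (by omega))
    (v - (sp F n).symm ((sp F n v).1, 0)) (by simp)
  have h2 := h0 _ (mem_WW g v)
  refine Prod.ext ?_ ?_
  · have := congrArg (fun x => (sp F n x).1) h1
    simpa [sub_eq_zero] using this
  · simpa [sub_eq_zero] using h2

noncomputable def emb (n : ℕ) (a : (Fin n →₀ F) ≃ₗ[F] (Fin n →₀ F)) : GLinf F :=
  ⟨((sp F n).trans (a.prodCongr (LinearEquiv.refl F _))).trans (sp F n).symm, n, fun i hi => by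
    have : (sp F n (Finsupp.single i 1)).1 = 0 := by
      ext j
      rw [sp_fst, Finsupp.single_eq_of_ne (by have := j.2; omega)]; rfl
    simp only [LinearEquiv.trans_apply, LinearEquiv.prodCongr_apply, this, map_zero,
      LinearEquiv.refl_apply]
    rw [← this]; simp⟩

lemma emb_apply (n : ℕ) (a : (Fin n →₀ F) ≃ₗ[F] (Fin n →₀ F)) (v : ℕ →₀ F) :
    sp F n (toEnd (emb n a) v) = (a (sp F n v).1, (sp F n v).2) := by
  simp [emb, toEnd]

lemma exists_emb {V : Type} [AddCommGroup V] [Module F V] [FiniteDimensional F V]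
    (a : V ≃ₗ[F] V) : ∃ (g : GLinf F) (e : (ℕ →₀ F) ≃ₗ[F] V × (ℕ →₀ F)),
      ∀ v, e (toEnd g v) = (a (e v).1, (e v).2) := by
  let b := (Module.finBasis F V).repr
  refine ⟨emb _ ((b.symm.trans a).trans b),
    (sp F _).trans (b.symm.prodCongr (LinearEquiv.refl F _)), fun v => ?_⟩
  simp [emb_apply]

variable [Fintype F]

instance finWW (g : GLinf F) : Finite (WW g) := Module.finite_of_finite F

lemma WW_stable (g : GLinf F) : ∀ w ∈ WW g, toEnd g w ∈ WW g := by
  rintro _ ⟨v, rfl⟩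
  exact ⟨toEnd g v, by simp⟩

noncomputable def resG (g : GLinf F) : WW g ≃ₗ[F] WW g :=
  LinearEquiv.ofInjectiveEndo (V := WW g) ((toEnd g).restrict (WW_stable g)) fun _ _ h =>
    Subtype.ext (toEnd_inj g (congrArg Subtype.val h))

lemma resG_apply (g : GLinf F) (w : WW g) : (resG g w : ℕ →₀ F) = toEnd g w := rfl

noncomputable def tau (g : GLinf F) : Iso F := cls (V := WW g) (resG g)

section
variable {W : Type} [AddCommGroup W] [Module F W] [Finite W]

lemma tau_of_res (g : GLinf F) (h : W ≃ₗ[F] W) (ι : W →ₗ[F] (ℕ →₀ F)) (hι : Injective ι)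
    (hr : range ι = WW g) (hi : ∀ w, toEnd g (ι w) = ι (h w)) : tau g = cls h := by
  let e : W ≃ₗ[F] WW g := (LinearEquiv.ofInjective ι hι).trans (LinearEquiv.ofEq _ _ hr)
  have he : ∀ w, (e w : ℕ →₀ F) = ι w := fun _ => rfl
  refine (cls_eq (W := WW g) (g := h) (h := resG g) e fun w => Subtype.ext ?_).symm
  rw [resG_apply, he, he, hi]

lemma tau_of_quo (g : GLinf F) (h : W ≃ₗ[F] W) (σ : (ℕ →₀ F) →ₗ[F] W) (hσ : Surjective σ)
    (hk : ∀ v, σ v = 0 ↔ toEnd g v = v) (hi : ∀ v, σ (toEnd g v) = h (σ v)) : tau g = cls h := by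
  obtain ⟨s, hs⟩ := σ.exists_rightInverse_of_surjective (range_eq_top.2 hσ)
  have hs1 : ∀ w, σ (s w) = w := fun w => LinearMap.congr_fun hs w
  have h1 : ∀ v, (toEnd g - 1) (s (σ v)) = (toEnd g - 1) v := fun v => by
    rw [← sub_eq_zero, ← map_sub, LinearMap.sub_apply, (hk _).1 (by simp [hs1])]; simp
  refine tau_of_res g h ((toEnd g - 1) ∘ₗ s) ((injective_iff_map_eq_zero _).2 fun w hw => ?_)
    (le_antisymm (range_comp_le_range _ _) ?_) fun w => ?_
  · rw [← hs1 w, hk]; exact sub_eq_zero.1 hw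
  · rintro _ ⟨v, rfl⟩; exact ⟨σ v, h1 v⟩
  · rw [comp_apply, comp_apply, ← congrArg h (hs1 w), ← hi, h1]; simp
end

lemma tau_conj (g z : GLinf F) : tau (z * g * z⁻¹) = tau g := by
  refine tau_of_res (W := WW g) _ _ (toEnd z ∘ₗ (WW g).subtype)
    ((toEnd_inj z).comp (WW g).injective_subtype) (le_antisymm ?_ ?_) fun w => ?_
  · rintro _ ⟨⟨_, v, rfl⟩, rfl⟩
    exact ⟨toEnd z v, by simp [toEnd_mul, toEnd_inv_left]⟩
  · rintro _ ⟨v, rfl⟩
    exact ⟨⟨_, mem_WW g (toEnd z⁻¹ v)⟩, by simp [toEnd_mul, toEnd_inv_right]⟩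
  · simp [toEnd_mul, toEnd_inv_left, resG_apply]

lemma conj_of_tau {g g' : GLinf F} (h : tau g = tau g') : IsConj g g' := by
  obtain ⟨φ, hφ⟩ := (cls_eq_iff (V := WW g) (W := WW g') _ _).1 h
  obtain ⟨n1, h1⟩ := exists_block g
  obtain ⟨n2, h2⟩ := exists_block g'
  obtain ⟨a, ha⟩ := h1 (max n1 n2) (le_max_left _ _)
  obtain ⟨a', ha'⟩ := h2 (max n1 n2) (le_max_right _ _)
  generalize max n1 n2 = n at a a' ha ha'
  have key : ∀ (g : GLinf F) (a : (Fin n →₀ F) →ₗ[F] (Fin n →₀ F)),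
      (∀ v, sp F n (toEnd g v) = (a (sp F n v).1, (sp F n v).2)) →
      ∃ (π : (Fin n →₀ F) →ₗ[F] WW g) (ι : WW g →ₗ[F] (Fin n →₀ F)), Surjective π ∧
        Injective ι ∧ (∀ w, π (ι w) = resG g w - w) ∧ ∀ x, ι (π x) = a x - x := by
    intro g a ha
    have h0 : ∀ w : WW g, (sp F n).symm ((sp F n w).1, 0) = w := by
      rintro ⟨_, v, rfl⟩
      rw [LinearEquiv.symm_apply_eq]
      simp [ha, Prod.ext_iff]
    refine ⟨(toEnd g - 1).rangeRestrict ∘ₗ (sp F n).symm.toLinearMap ∘ₗ inl F _ _,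
      fst F _ _ ∘ₗ (sp F n).toLinearMap ∘ₗ (WW g).subtype, ?_, fun w w' e => ?_, fun w => ?_,
      fun x => ?_⟩
    · rintro ⟨_, v, rfl⟩
      refine ⟨(sp F n v).1, Subtype.ext ((sp F n).injective ?_)⟩
      simp [ha, Prod.ext_iff]
    · refine Subtype.ext ?_
      rw [← h0 w, ← h0 w']
      exact congrArg (fun x => (sp F n).symm (x, 0)) e
    · refine Subtype.ext ?_
      change (toEnd g - 1) ((sp F n).symm ((sp F n w).1, 0)) = _
      rw [h0]; rfl
    · simp [ha]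
  obtain ⟨π, ι, p1, p2, p3, p4⟩ := key g a ha
  obtain ⟨π', ι', q1, q2, q3, q4⟩ := key g' a' ha'
  obtain ⟨z, hz1, hz2⟩ := fd_conj (W := WW g') (φ.toLinearMap ∘ₗ π) π' (ι ∘ₗ φ.symm.toLinearMap) ι'
    (φ.surjective.comp p1) q1 (p2.comp φ.symm.injective) q2 fun w => by
      change φ (π (ι (φ.symm w))) = _
      rw [p3, q3, map_sub φ, hφ, φ.apply_symm_apply]
  have hz : ∀ x, z (a x) = a' (z x) := fun x => by
    have e1 := hz2 (φ (π x))
    have e2 := q4 (z x)
    rw [hz1] at e2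
    simp only [comp_apply, LinearEquiv.coe_coe, LinearEquiv.symm_apply_apply, p4, map_sub] at e1 e2
    rw [e2] at e1
    exact sub_left_injective e1
  refine isConj_iff.2 ⟨emb n z, mul_inv_eq_iff_eq_mul.2 (gl_ext fun v => (sp F n).injective ?_)⟩
  simp only [toEnd_mul, emb_apply, ha, ha', hz]

lemma tau_surj : Surjective (tau (F := F)) := by
  refine Iso.ind fun W _ _ _ h => ?_
  let a : (W × W) ≃ₗ[F] (W × W) := h.skewProd (LinearEquiv.refl F W) 0 |>.trans
    (LinearEquiv.prodComm F W W) |>.trans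
    ((LinearEquiv.refl F W).skewProd (LinearEquiv.refl F W) LinearMap.id) |>.trans
    (LinearEquiv.prodComm F W W)
  have ha : ∀ x : W × W, a x = (h x.1 + x.2, x.2) := fun x => by simp [a]
  obtain ⟨g, e, he⟩ := exists_emb a
  refine ⟨g, tau_of_res g h (e.symm.toLinearMap ∘ₗ inl F _ _ ∘ₗ inl F _ _)
    (e.symm.injective.comp (inl_injective.comp inl_injective)) (le_antisymm ?_ ?_) fun w => ?_⟩
  · rintro _ ⟨w, rfl⟩
    exact ⟨e.symm ((0, w), 0), e.injective (by simp [he, ha])⟩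
  · rintro _ ⟨v, rfl⟩
    refine ⟨h (e v).1.1 + (e v).1.2 - (e v).1.1, e.injective ?_⟩
    simp [he, ha, Prod.ext_iff]
  · exact e.injective (by simp [he, ha])

end Pool.Agent.H815Z.Bridge
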