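import Pool.Agent.H815Z.BridgeA

/-! Single cycle classes and structure constants under the classification. -/

set_option autoImplicit false
set_option linter.unusedSectionVars false

namespace Pool.Agent.H815Z.Bridge
open LinearMap Module Polynomial
open Function (Injective Surjective)
open scoped Classical

variable {F : Type} [Field F] [Fintype F]

lemma block_dvd (i : Idx F) : i.1.2 ^ i.1.1 ∣ blockPoly i := by
  unfold blockPoly
  split_ifs
  · exact pow_dvd_pow _ (Nat.le_succ _)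
  · exact dvd_rfl

lemma block_iff (i : Idx F) (p : F[X]) : i.1.2 ^ i.1.1 ∣ p ↔ blockPoly i ∣ (X - 1) * p := by
  unfold blockPoly
  split_ifs with h
  · rw [← h, pow_succ', mul_dvd_mul_iff_left i.2.2.2.1.ne_zero]
  · refine ⟨fun h1 => h1.mul_left _, fun h1 => IsCoprime.dvd_of_dvd_mul_left ?_ h1⟩
    refine IsCoprime.pow_left (i.2.2.2.1.coprime_iff_not_dvd.2 fun h2 => h ?_)
    have hm : (X - 1 : F[X]).Monic := monic_X_sub_C 1
    have hi : Irreducible (X - 1 : F[X]) := irreducible_X_sub_C 1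
    exact eq_of_monic_of_associated i.2.2.1 hm (i.2.2.2.1.associated_of_dvd hi h2)

lemma block_coeff (i : Idx F) : (blockPoly i).coeff 0 ≠ 0 := by
  unfold blockPoly
  split_ifs <;> exact i.pow_coeff_ne _

lemma tau_cycle {i : Idx F} {g : GLinf F} (h : IsSingleCycle i g) : tau g = cycI i := by
  obtain ⟨e, he⟩ := h
  haveI := finite_adjoinRoot (i.pow_coeff_ne i.1.1)
  let ρ := AdjoinRoot.algHomOfDvd F (blockPoly i) (i.1.2 ^ i.1.1) (block_dvd i)
  have hρ : ∀ p : F[X], ρ (AdjoinRoot.mk _ p) = AdjoinRoot.mk _ p := fun p => by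
    rw [← AdjoinRoot.aeval_eq, ← AdjoinRoot.aeval_eq, ← aeval_algHom_apply,
      AdjoinRoot.algHomOfDvd_root]
  refine tau_of_quo g (cycEquiv _ (i.pow_coeff_ne i.1.1))
    (ρ.toLinearMap ∘ₗ fst F _ _ ∘ₗ e.toLinearMap) (fun w => ?_) (fun v => ?_) fun v => ?_
  · obtain ⟨p, rfl⟩ := AdjoinRoot.mk_surjective w
    exact ⟨e.symm (AdjoinRoot.mk _ p, 0), by simp [hρ]⟩
  · obtain ⟨p, hp⟩ := AdjoinRoot.mk_surjective (e v).1
    change ρ (e v).1 = 0 ↔ _
    rw [← e.injective.eq_iff, he, Prod.ext_iff, ← hp, hρ, AdjoinRoot.mk_eq_zero, block_iff,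
      ← AdjoinRoot.mk_eq_zero, map_mul, map_sub, AdjoinRoot.mk_X, map_one, sub_mul, one_mul,
      sub_eq_zero]
    simp
  · change ρ (e (toEnd g v)).1 = AdjoinRoot.root _ * ρ (e v).1
    rw [he, map_mul, AdjoinRoot.algHomOfDvd_root]

lemma cycle_iff (i : Idx F) (g : GLinf F) : tau g = cycI i ↔ IsSingleCycle i g := by
  refine ⟨fun h => ?_, tau_cycle⟩
  haveI := finite_adjoinRoot (block_coeff i)
  obtain ⟨g0, e, he⟩ := exists_emb (cycEquiv _ (block_coeff i))
  obtain ⟨z, rfl⟩ := isConj_iff.1 (conj_of_tau ((tau_cycle ⟨e, he⟩).trans h.symm))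
  refine ⟨(z⁻¹ : GLinf F).1.trans e, fun v => ?_⟩
  change e (toEnd z⁻¹ _) = (_ * (e (toEnd z⁻¹ v)).1, (e (toEnd z⁻¹ v)).2)
  rw [toEnd_mul, toEnd_mul, toEnd_inv_left, he]; rfl

variable {W : Type} [AddCommGroup W] [Module F W] [Finite W]

/-- index type of the stable product -/
abbrev Quad (F W : Type) [Field F] [AddCommGroup W] [Module F W] : Type :=
  Σ (A : Submodule F W) (B : Submodule F W), (A ≃ₗ[F] A) × (B ≃ₗ[F] B)

def Val (h : W ≃ₗ[F] W) (q : Quad F W) : Prop :=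
  IsCompl q.1 q.2.1 ∧ (∀ a : q.1, h.symm (q.2.2.1 a) - a ∈ q.2.1) ∧
    ∀ b : q.2.1, h b - q.2.2.2 b ∈ q.1

def Rel (ι : W →ₗ[F] (ℕ →₀ F)) (x y : GLinf F) (q : Quad F W) : Prop :=
  q.1.map ι = WW x ∧ q.2.1.map ι = WW y ∧
    (∀ a : q.1, toEnd x (ι a) = ι (q.2.2.1 a)) ∧ ∀ b : q.2.1, toEnd y (ι b) = ι (q.2.2.2 b)

section
variable {ι : W →ₗ[F] (ℕ →₀ F)} (hι : Injective ι)
include hι

lemma tau_sub {x : GLinf F} {A : Submodule F W} {x1 : A ≃ₗ[F] A}
    (h1 : A.map ι = WW x) (h2 : ∀ a : A, toEnd x (ι a) = ι (x1 a)) :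
    tau x = cls x1 ∧ len x = finrank F A := by
  refine ⟨tau_of_res x x1 (ι ∘ₗ A.subtype) (hι.comp A.injective_subtype) ?_ h2, ?_⟩
  · rw [range_comp, Submodule.range_subtype, h1]
  · change finrank F (WW x) = _
    rw [← h1]
    exact (Submodule.equivMapOfInjective ι hι A).finrank_eq.symm

lemma Rel_left {x y : GLinf F} {q q' : Quad F W} (h : Rel ι x y q) (h' : Rel ι x y q') :
    q = q' := by
  obtain ⟨A, B, x1, x2⟩ := q
  obtain ⟨A', B', x1', x2'⟩ := q'
  obtain ⟨h1, h2, h3, h4⟩ := h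
  obtain ⟨h1', h2', h3', h4'⟩ := h'
  have hi := Submodule.map_injective_of_injective hι
  obtain rfl : A = A' := hi (h1.trans h1'.symm)
  obtain rfl : B = B' := hi (h2.trans h2'.symm)
  obtain rfl : x1 = x1' := LinearEquiv.ext fun a => Subtype.ext (hι ((h3 a).symm.trans (h3' a)))
  obtain rfl : x2 = x2' := LinearEquiv.ext fun a => Subtype.ext (hι ((h4 a).symm.trans (h4' a)))
  rfl

lemma Rel_right {x y x' y' : GLinf F} {q : Quad F W} (hq : IsCompl q.1 q.2.1) (h : Rel ι x y q)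
    (h' : Rel ι x' y' q) (e : x * y = x' * y') : x = x' ∧ y = y' := by
  have hy : y = y' := gl_ext fun v => by
    have d : Disjoint (WW x) (WW y) := by
      rw [← h.1, ← h.2.1]
      exact Submodule.disjoint_map hι hq.disjoint
    have e1 : toEnd x (toEnd y v) = toEnd x' (toEnd y' v) := by
      rw [← toEnd_mul, ← toEnd_mul, e]
    have m1 := mem_WW x (toEnd y v)
    have m2 := mem_WW x' (toEnd y' v)
    have m3 := mem_WW y v
    have m4 := mem_WW y' v
    rw [← h'.1, h.1] at m2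
    rw [← h'.2.1, h.2.1] at m4
    refine sub_eq_zero.1 ((Submodule.disjoint_def.1 d) _ ?_ ?_)
    · have := (WW x).sub_mem m2 m1
      rw [e1] at this
      simpa using this
    · simpa using (WW y).sub_mem m3 m4
  subst hy
  exact ⟨mul_right_cancel e, rfl⟩

lemma exists_res {x : GLinf F} (hx : WW x ≤ range ι) :
    ∃ x1 : (WW x).comap ι ≃ₗ[F] (WW x).comap ι, ∀ a : (WW x).comap ι,
      toEnd x (ι a) = ι (x1 a) := by
  obtain ⟨r, hr⟩ := ι.exists_leftInverse_of_injective (ker_eq_bot.2 hι)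
  have h1 : ∀ v ∈ WW x, ι (r v) = v := fun v hv => by
    obtain ⟨w, rfl⟩ := hx hv
    exact congrArg ι (LinearMap.congr_fun hr w)
  have h2 : ∀ a ∈ (WW x).comap ι, ι ((r ∘ₗ toEnd x ∘ₗ ι) a) = toEnd x (ι a) := fun a ha =>
    h1 _ (WW_stable x _ ha)
  have h3 : ∀ a ∈ (WW x).comap ι, (r ∘ₗ toEnd x ∘ₗ ι) a ∈ (WW x).comap ι := fun a ha => by
    rw [Submodule.mem_comap, h2 a ha]; exact WW_stable x _ ha
  refine ⟨LinearEquiv.ofInjectiveEndo ((r ∘ₗ toEnd x ∘ₗ ι).restrict h3) fun a b e =>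
    Subtype.ext (hι (toEnd_inj x ?_)), fun a => (h2 a a.2).symm⟩
  rw [← h2 a a.2, ← h2 b b.2]
  exact congrArg (fun u => ι u.1) e

variable {g : GLinf F} {h : W ≃ₗ[F] W} (hr : range ι = WW g)
  (hi : ∀ w, toEnd g (ι w) = ι (h w))
include hr hi

lemma exists_quad {x y : GLinf F} (e : x * y = g) (hl : len g = len x + len y) :
    ∃ q : Quad F W, Val h q ∧ Rel ι x y q := by
  have eg : ∀ v, toEnd g v = toEnd x (toEnd y v) := fun v => by rw [← e]; rfl
  have h1 : WW g ≤ WW x ⊔ WW y := by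
    rintro _ ⟨v, rfl⟩
    refine Submodule.mem_sup.2 ⟨_, mem_WW x (toEnd y v), _, mem_WW y v, ?_⟩
    simp [eg]
  have h2 := Submodule.finrank_sup_add_finrank_inf_eq (WW x) (WW y)
  have h3 := Submodule.finrank_mono h1
  have hl' : finrank F (WW g) = finrank F (WW x) + finrank F (WW y) := hl
  have h4 : WW g = WW x ⊔ WW y := Submodule.eq_of_le_of_finrank_le h1 (by omega)
  have h5 : WW x ⊓ WW y = ⊥ := Submodule.finrank_eq_zero.1 (by omega)
  have hx : WW x ≤ range ι := by rw [hr, h4]; exact le_sup_left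
  have hy : WW y ≤ range ι := by rw [hr, h4]; exact le_sup_right
  obtain ⟨x1, hx1⟩ := exists_res hι hx
  obtain ⟨x2, hx2⟩ := exists_res hι hy
  refine ⟨⟨(WW x).comap ι, (WW y).comap ι, x1, x2⟩, ⟨⟨?_, ?_⟩, fun a => ?_, fun b => ?_⟩,
    Submodule.map_comap_eq_self hx, Submodule.map_comap_eq_self hy, hx1, hx2⟩
  · rw [disjoint_iff, ← Submodule.comap_inf, h5, Submodule.comap_bot, ker_eq_bot.2 hι]
  · rw [codisjoint_iff, eq_top_iff]
    intro w _
    obtain ⟨a, ha, b, hb, hab⟩ := Submodule.mem_sup.1 (h1 (hr ▸ mem_range_self ι w))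
    obtain ⟨a, rfl⟩ := hx ha
    obtain ⟨b, rfl⟩ := hy hb
    exact Submodule.mem_sup.2 ⟨a, ha, b, hb, hι (by rw [map_add, hab])⟩
  · have h6 := hi (h.symm (x1 a))
    rw [h.apply_symm_apply, ← hx1, eg] at h6
    have h7 := (WW y).neg_mem (mem_WW y (ι (h.symm (x1 a))))
    rw [toEnd_inj x h6, neg_sub, ← map_sub] at h7
    exact h7
  · have := mem_WW x (toEnd y (ι b))
    rw [← eg, hi, hx2, ← map_sub] at this
    exact this

lemma exists_pair {q : Quad F W} (hq : Val h q) :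
    ∃ x y : GLinf F, x * y = g ∧ Rel ι x y q := by
  obtain ⟨A, B, x1, x2⟩ := q
  obtain ⟨hc, h1, h2⟩ := hq
  simp only at hc h1 h2
  obtain ⟨r, hr'⟩ := ι.exists_leftInverse_of_injective (ker_eq_bot.2 hι)
  let N : (ℕ →₀ F) →ₗ[F] W := r ∘ₗ (toEnd g - 1)
  have hN1 : ∀ v, ι (N v) = toEnd g v - v := fun v => by
    obtain ⟨w, hw⟩ : toEnd g v - v ∈ range ι := hr ▸ mem_WW g v
    change ι (r (toEnd g v - v)) = _
    rw [← hw]
    exact congrArg ι (LinearMap.congr_fun hr' w)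
  have hN : Surjective N := fun w => by
    obtain ⟨v, hv⟩ : ι w ∈ WW g := hr ▸ mem_range_self ι w
    exact ⟨v, hι ((hN1 v).trans hv)⟩
  have hN2 : ∀ w, N (ι w) = h w - w := fun w => hι (by rw [hN1, hi, map_sub])
  let pB : W →ₗ[F] W := B.projection A hc.symm
  let pA : W →ₗ[F] W := A.projection B hc
  have hp : ∀ w, pA w + pB w = w := Submodule.projection_add_projection_eq_self hc
  let y0 : (ℕ →₀ F) →ₗ[F] (ℕ →₀ F) := 1 + ι ∘ₗ pB ∘ₗ N
  have hy0 : ∀ v, y0 v = v + ι (pB (N v)) := fun _ => rfl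
  have hB : ∀ b : B, y0 (ι b) = ι (x2 b) := fun b => by
    have e1 : N (ι b) = (h b - x2 b) + ((x2 b - b : B) : W) := by
      rw [hN2]; simp
    rw [hy0, e1, map_add, (Submodule.projection_apply_eq_zero_iff hc.symm).2 (h2 b),
      Submodule.projection_apply_left]
    simp
  have hinj : Injective y0 := (injective_iff_map_eq_zero _).2 fun v hv => by
    have e1 : v = ι (⟨-pB (N v), B.neg_mem (Submodule.projection_apply_mem _ _)⟩ : B) := by
      rw [map_neg]; exact eq_neg_of_add_eq_zero_left hv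
    rw [e1, hB] at hv
    have e2 := x2.map_eq_zero_iff.1 (Subtype.ext (hι (hv.trans (map_zero ι).symm)))
    rw [e1, e2]; simp
  have hsurj : Surjective y0 := fun v =>
    ⟨v - ι (x2.symm ⟨pB (N v), Submodule.projection_apply_mem _ _⟩ : B), by
      rw [map_sub, hB, hy0]; simp⟩
  obtain ⟨n, hn⟩ := g.2
  let y : GLinf F := ⟨LinearEquiv.ofBijective y0 ⟨hinj, hsurj⟩, n, fun i hi => by
    have : N (Finsupp.single i 1) = 0 :=
      hι (by rw [hN1, map_zero]; exact sub_eq_zero.2 (hn i hi))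
    change y0 _ = _
    rw [hy0, this]; simp⟩
  have hy : ∀ v, toEnd y v = y0 v := fun _ => rfl
  have hx : ∀ v, (toEnd (g * y⁻¹) - 1) (toEnd y v) = ι (pA (N v)) := fun v => by
    rw [LinearMap.sub_apply, toEnd_mul, toEnd_inv_left, Module.End.one_apply, hy, hy0,
      ← sub_sub, sub_eq_iff_eq_add, ← map_add, hp, hN1]
  refine ⟨g * y⁻¹, y, by simp, le_antisymm ?_ ?_, le_antisymm ?_ ?_, fun a => ?_, hB⟩
  · rintro _ ⟨a, ha, rfl⟩
    obtain ⟨v, rfl⟩ := hN a
    exact ⟨toEnd y v, by rw [hx, Submodule.projection_apply_of_mem_left hc ha]⟩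
  · rintro _ ⟨v, rfl⟩
    rw [← toEnd_inv_right y v, hx]
    exact ⟨_, Submodule.projection_apply_mem _ _, rfl⟩
  · rintro _ ⟨b, hb, rfl⟩
    obtain ⟨v, rfl⟩ := hN b
    refine ⟨v, ?_⟩
    rw [LinearMap.sub_apply, hy, hy0, Submodule.projection_apply_of_mem_left hc.symm hb]
    simp
  · rintro _ ⟨v, rfl⟩
    refine ⟨pB (N v), Submodule.projection_apply_mem _ _, ?_⟩
    rw [LinearMap.sub_apply, hy, hy0]; simp
  · obtain ⟨w, hw⟩ : ∃ w, w = h.symm (x1 a) := ⟨_, rfl⟩
    have e0 := h1 a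
    rw [← hw] at e0
    have e1 : h w = x1 a := (LinearEquiv.eq_symm_apply _).1 hw
    have e2 : N (ι w) = ((x1 a - a : A) : W) - (w - a) := by rw [hN2, e1]; simp
    have e3 : toEnd y (ι w) = ι a := by
      rw [hy, hy0, e2, map_sub, Submodule.projection_apply_right,
        Submodule.projection_apply_of_mem_left hc.symm e0]
      simp
    change toEnd (g * y⁻¹) (ι a) = ι (x1 a)
    rw [← e3, toEnd_mul, toEnd_inv_left, hi, e1]

lemma card_pairs (c d : Iso F) :
    Nat.card {p : GLinf F × GLinf F // tau p.1 = c ∧ tau p.2 = d ∧ p.1 * p.2 = g ∧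
      len (p.1 * p.2) = len p.1 + len p.2} =
    Nat.card {q : Quad F W // Val h q ∧ cls q.2.2.1 = c ∧ cls q.2.2.2 = d} := by
  have h0 : ∀ p : {p : GLinf F × GLinf F // tau p.1 = c ∧ tau p.2 = d ∧ p.1 * p.2 = g ∧
      len (p.1 * p.2) = len p.1 + len p.2}, ∃ q : {q : Quad F W // Val h q ∧
      cls q.2.2.1 = c ∧ cls q.2.2.2 = d}, Rel ι p.1.1 p.1.2 q.1 := by
    rintro ⟨⟨x, y⟩, h1, h2, h3, h4⟩
    obtain ⟨q, h5, h6⟩ := exists_quad hι hr hi h3 (h3 ▸ h4)
    exact ⟨⟨q, h5, (tau_sub hι h6.1 h6.2.2.1).1.symm.trans h1,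
      (tau_sub hι h6.2.1 h6.2.2.2).1.symm.trans h2⟩, h6⟩
  choose f hf using h0
  refine Nat.card_congr (Equiv.ofBijective f ⟨fun p p' e => ?_, fun q => ?_⟩)
  · have := Rel_right hι (f p).2.1.1 (hf p) (e ▸ hf p') (p.2.2.2.1.trans p'.2.2.2.1.symm)
    exact Subtype.ext (Prod.ext this.1 this.2)
  · obtain ⟨x, y, h1, h2⟩ := exists_pair hι hr hi q.2.1
    have h3 := tau_sub hι h2.1 h2.2.2.1
    have h4 := tau_sub hι h2.2.1 h2.2.2.2
    refine ⟨⟨(x, y), h3.1.trans q.2.2.1, h4.1.trans q.2.2.2, h1, ?_⟩,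
      Subtype.ext (Rel_left hι (hf _) h2)⟩
    rw [h1, h3.2, h4.2, Submodule.finrank_add_eq_of_isCompl q.2.1.1]
    change finrank F (WW g) = _
    rw [← hr, finrank_range_of_inj hι]
end

lemma star_card (h : W ≃ₗ[F] W) (c d : Iso F) :
    starRaw (Pi.single c (1 : ℂ)) (Pi.single d 1) h =
    (Nat.card {q : Quad F W // Val h q ∧ cls q.2.2.1 = c ∧ cls q.2.2.2 = d} : ℂ) := by
  rw [Nat.card_eq_fintype_card, Fintype.card_subtype, Finset.card_filter, Nat.cast_sum,
    Fintype.sum_sigma, starRaw]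
  refine Finset.sum_congr rfl fun A _ => ?_
  rw [Fintype.sum_sigma]
  refine Finset.sum_congr rfl fun B _ => ?_
  rw [Fintype.sum_prod_type]
  refine Finset.sum_congr rfl fun x1 _ => Finset.sum_congr rfl fun x2 _ => ?_
  by_cases h1 : Val h ⟨A, B, x1, x2⟩
  · refine (if_pos h1).trans ?_
    by_cases h2 : cls x1 = c <;> by_cases h3 : cls x2 = d <;>
      simp [h1, h2, h3, Pi.single_apply]
  · refine (if_neg h1).trans ?_
    simp [h1]

end Pool.Agent.H815Z.Bridge

namespace Pool.Agent.H815Z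
open scoped Classical
open Bridge

theorem stable_bridge (F : Type) [Field F] [Fintype F] :
    ∃ T : ConjClasses (GLinf F) ≃ Iso F, (T 1).dim = 0 ∧
      (∀ (i : Idx F) (g : GLinf F), T (ConjClasses.mk g) = cycI i ↔ IsSingleCycle i g) ∧
      ∀ C D E : ConjClasses (GLinf F),
        (coef C D E : ℂ) = star (Pi.single (T C) 1) (Pi.single (T D) 1) (T E) := by
  let T0 : ConjClasses (GLinf F) → Iso F := Quotient.lift tau fun a b h => by
    obtain ⟨z, rfl⟩ := isConj_iff.1 h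
    exact (tau_conj a z).symm
  have hT : ∀ g, T0 (ConjClasses.mk g) = tau g := fun _ => rfl
  have hinj : Function.Injective T0 := by
    intro a b h
    obtain ⟨a, rfl⟩ := ConjClasses.mk_surjective a
    obtain ⟨b, rfl⟩ := ConjClasses.mk_surjective b
    exact ConjClasses.mk_eq_mk_iff_isConj.2 (conj_of_tau h)
  have hsurj : Function.Surjective T0 := fun M => by
    obtain ⟨g, rfl⟩ := tau_surj M
    exact ⟨ConjClasses.mk g, rfl⟩
  refine ⟨Equiv.ofBijective T0 ⟨hinj, hsurj⟩, ?_, cycle_iff, fun C D E => ?_⟩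
  · change (tau (1 : GLinf F)).dim = 0
    rw [tau, dim_cls, Submodule.finrank_eq_zero, LinearMap.range_eq_bot]
    exact sub_self (1 : Module.End F (ℕ →₀ F))
  · change _ = star (Pi.single (T0 C) 1) (Pi.single (T0 D) 1) (T0 E)
    have hE : T0 E = tau (Quotient.out E) := congrArg T0 (Quotient.out_eq E).symm
    obtain ⟨e, he⟩ := (cls_eq_iff (W := WW (Quotient.out E)) _ _).1 ((cls_out (T0 E)).trans hE)
    rw [star, star_card, ← card_pairs (g := Quotient.out E)
      (ι := (WW (Quotient.out E)).subtype ∘ₗ e.toLinearMap)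
      ((WW _).injective_subtype.comp e.injective)
      (by rw [LinearMap.range_comp, e.range, Submodule.map_top, Submodule.range_subtype])
      (fun w => (congrArg Subtype.val (he w)).symm), coef]
    simp only [← hT, hinj.eq_iff]

end Pool.Agent.H815Z
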