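import Mathlib

/-! The stable center of the finite general linear groups: definitions used in the statement. -/

namespace Pool.Agent.H815Z

open Polynomial

variable (F : Type) [Field F]

/-- `GL_∞(F)`: the union of the groups `GL_n(F)`, i.e. the invertible linear maps of the space
with basis `e_0, e_1, ...` that fix `e_i` for all large `i`. -/
def GLinf : Subgroup ((ℕ →₀ F) ≃ₗ[F] (ℕ →₀ F)) where
  carrier := {g | ∃ n : ℕ, ∀ i, n ≤ i → g (Finsupp.single i 1) = Finsupp.single i 1}
  one_mem' := ⟨0, fun _ _ => rfl⟩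
  mul_mem' := by
    rintro a b ⟨m, hm⟩ ⟨n, hn⟩
    refine ⟨max m n, fun i hi => ?_⟩
    rw [LinearEquiv.mul_apply, hn i (le_of_max_le_right hi), hm i (le_of_max_le_left hi)]
  inv_mem' := by
    rintro a ⟨m, hm⟩
    refine ⟨m, fun i hi => ?_⟩
    apply a.injective
    rw [hm i hi]
    exact a.apply_symm_apply _

variable {F}

/-- The underlying endomorphism of an element of `GL_∞(F)`. -/
def toEnd (g : GLinf F) : Module.End F (ℕ →₀ F) :=
  ((g : (ℕ →₀ F) ≃ₗ[F] (ℕ →₀ F)) : (ℕ →₀ F) →ₗ[F] (ℕ →₀ F))

/-- The reflection length: the rank of `g - 1`. -/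
noncomputable def len (g : GLinf F) : ℕ := Module.finrank F (LinearMap.range (toEnd g - 1))

/-- The structure constant `a^E_{C D}` of the stable center: for a representative `g` of `E`, the
number of pairs `(x, y)` in `C × D` with `x y = g` whose reflection lengths add up to that of `g`
(so it is `0` unless the length of `E` is the sum of the lengths of `C` and `D`). -/
noncomputable def coef (C D E : ConjClasses (GLinf F)) : ℕ :=
  Nat.card {p : GLinf F × GLinf F // ConjClasses.mk p.1 = C ∧ ConjClasses.mk p.2 = D ∧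
    p.1 * p.2 = Quotient.out E ∧ len (p.1 * p.2) = len p.1 + len p.2}

variable (F) in
/-- Index set of the single cycle classes: pairs `(r, f)`, `r ≥ 1`, `f` monic irreducible,
`f ≠ X`. -/
def Idx : Type := {p : ℕ × F[X] // 1 ≤ p.1 ∧ p.2.Monic ∧ Irreducible p.2 ∧ p.2 ≠ X}

open Classical in
/-- The size of the block of the single cycle class `(r)_f`: `f ^ r`, or `f ^ (r + 1)` when
`f = X - 1`. -/
noncomputable def blockPoly (i : Idx F) : F[X] :=
  if i.1.2 = X - 1 then i.1.2 ^ (i.1.1 + 1) else i.1.2 ^ i.1.1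

/-- `g` lies in the single cycle class `(r)_f`: as a module over `F[X]`, with `X` acting as `g`,
the space is `F[X] / (blockPoly)` plus a space on which `X` acts as the identity. -/
def IsSingleCycle (i : Idx F) (g : GLinf F) : Prop :=
  ∃ e : (ℕ →₀ F) ≃ₗ[F] (AdjoinRoot (blockPoly i) × (ℕ →₀ F)),
    ∀ v, e (toEnd g v) = (AdjoinRoot.root (blockPoly i) * (e v).1, (e v).2)

end Pool.Agent.H815Z
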