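import Pool.Agent.H815Z.HallBasic
import Pool.Agent.H815Z.StableDefs

/-! Cyclic objects `F[X] / (h)` with `X` acting by multiplication. -/

namespace Pool.Agent.H815Z

open Polynomial

variable {F : Type} [Field F]

theorem isUnit_root {h : F[X]} (h0 : h.coeff 0 ≠ 0) : IsUnit (AdjoinRoot.root h) := by
  have h1 : AdjoinRoot.mk h (X * h.divX + C (h.coeff 0)) = 0 := by
    rw [X_mul_divX_add]; exact AdjoinRoot.mk_self
  rw [map_add, map_mul, AdjoinRoot.mk_X] at h1
  have h2 : IsUnit (AdjoinRoot.mk h (C (h.coeff 0))) :=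
    ((isUnit_C.2 (IsUnit.mk0 _ h0)).map _)
  have h3 : AdjoinRoot.root h * (-(AdjoinRoot.mk h h.divX)) = AdjoinRoot.mk h (C (h.coeff 0)) := by
    linear_combination -h1
  exact isUnit_of_mul_isUnit_left (h3 ▸ h2)

/-- Multiplication by the class of `X` on `F[X] / (h)`, for `h (0) ≠ 0`. -/
noncomputable def cycEquiv (h : F[X]) (h0 : h.coeff 0 ≠ 0) : AdjoinRoot h ≃ₗ[F] AdjoinRoot h :=
  LinearEquiv.ofBijective (LinearMap.mulLeft F (AdjoinRoot.root h))
    ((isUnit_root h0).unit.mulLeft_bijective)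

@[simp] theorem cycEquiv_apply (h : F[X]) (h0 : h.coeff 0 ≠ 0) (v : AdjoinRoot h) :
    cycEquiv h h0 v = AdjoinRoot.root h * v := rfl

theorem finite_adjoinRoot [Finite F] {h : F[X]} (h0 : h.coeff 0 ≠ 0) : Finite (AdjoinRoot h) := by
  have hne : h ≠ 0 := by rintro rfl; simp at h0
  haveI := (AdjoinRoot.powerBasis hne).finite
  exact Module.finite_of_finite F

/-- The class of the cyclic object `F[X] / (h)`. -/
noncomputable def cyc [Finite F] (h : F[X]) (h0 : h.coeff 0 ≠ 0) : Iso F :=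
  haveI := finite_adjoinRoot h0
  cls (cycEquiv h h0)

theorem Idx.coeff_ne (i : Idx F) : i.1.2.coeff 0 ≠ 0 := by
  intro h
  obtain ⟨-, hm, hi, hX⟩ := i.2
  exact hX (eq_of_monic_of_associated hm monic_X
    ((irreducible_X.associated_of_dvd hi (X_dvd_iff.2 h)).symm))

theorem Idx.pow_coeff_ne (i : Idx F) (r : ℕ) : (i.1.2 ^ r).coeff 0 ≠ 0 := by
  rw [coeff_zero_eq_eval_zero, eval_pow, ← coeff_zero_eq_eval_zero]
  exact pow_ne_zero _ i.coeff_ne

/-- The primary cyclic object `F[X] / (f ^ r)` attached to `i = (r, f)`. -/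
noncomputable def cycI [Finite F] (i : Idx F) : Iso F := cyc (i.1.2 ^ i.1.1) (i.pow_coeff_ne _)

end Pool.Agent.H815Z
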