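import Pool.Agent.H815Z.HallDefs

/-! Invariance of the Hall product, the unipotent convolution and the stable product. -/

namespace Pool.Agent.H815Z

open scoped Classical

set_option linter.unusedSectionVars false

variable {F : Type} [Field F]
variable {V W : Type} [AddCommGroup V] [Module F V] [Finite V] [AddCommGroup W] [Module F W]
  [Finite W]
variable {K : Type*} [CommRing K]

theorem mem_inv_iff {g : V ≃ₗ[F] V} (A : Inv g) (v : V) : g v ∈ A.1 ↔ v ∈ A.1 := by
  constructor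
  · intro h
    rw [← A.2] at h
    obtain ⟨w, hw, hwv⟩ := h
    rwa [← g.injective hwv]
  · intro h
    rw [← A.2]
    exact ⟨v, h, rfl⟩

theorem map_eq_of_le {g : V ≃ₗ[F] V} {A : Submodule F V} (h : ∀ v ∈ A, g v ∈ A) :
    A.map (g : V →ₗ[F] V) = A := by
  have hle : A.map (g : V →ₗ[F] V) ≤ A := by
    rintro _ ⟨v, hv, rfl⟩; exact h v hv
  apply Submodule.eq_of_le_of_finrank_eq hle
  exact (LinearEquiv.finrank_map_eq g A)

/-- An invariant subspace from stability under `g`. -/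
def Inv.mk' {g : V ≃ₗ[F] V} (A : Submodule F V) (h : ∀ v ∈ A, g v ∈ A) : Inv g :=
  ⟨A, map_eq_of_le h⟩

/-- Transport of invariant subspaces along an intertwining equivalence. -/
def Inv.congr {g : V ≃ₗ[F] V} {h : W ≃ₗ[F] W} (e : V ≃ₗ[F] W) (he : ∀ v, e (g v) = h (e v)) :
    Inv g ≃ Inv h where
  toFun A := Inv.mk' (A.1.map (e : V →ₗ[F] W)) (by
    rintro _ ⟨v, hv, rfl⟩
    exact ⟨g v, (mem_inv_iff A v).2 hv, he v⟩)
  invFun B := Inv.mk' (B.1.map (e.symm : W →ₗ[F] V)) (by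
    rintro _ ⟨w, hw, rfl⟩
    refine ⟨h w, (mem_inv_iff B w).2 hw, e.injective ?_⟩
    simp [he])
  left_inv A := by
    apply Subtype.ext
    simp [Inv.mk', ← Submodule.map_comp]
  right_inv B := by
    apply Subtype.ext
    simp [Inv.mk', ← Submodule.map_comp]

theorem cls_res_congr {g : V ≃ₗ[F] V} {h : W ≃ₗ[F] W} (e : V ≃ₗ[F] W)
    (he : ∀ v, e (g v) = h (e v)) (A : Inv g) :
    cls (res h (Inv.congr e he A)) = cls (res g A) := by
  symm
  refine cls_eq (e.ofSubmodules A.1 _ rfl) fun a => ?_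
  apply Subtype.ext
  exact he a

theorem cls_quo_congr {g : V ≃ₗ[F] V} {h : W ≃ₗ[F] W} (e : V ≃ₗ[F] W)
    (he : ∀ v, e (g v) = h (e v)) (A : Inv g) :
    cls (quo h (Inv.congr e he A)) = cls (quo g A) := by
  symm
  refine cls_eq (Submodule.Quotient.equiv A.1 _ e rfl) fun a => ?_
  obtain ⟨v, rfl⟩ := Submodule.Quotient.mk_surjective _ a
  exact congrArg Submodule.Quotient.mk (he v)

theorem sum_inv_congr {M : Type*} [AddCommMonoid M] (Φ : Iso F → Iso F → M) {g : V ≃ₗ[F] V}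
    {h : W ≃ₗ[F] W} (hgh : cls g = cls h) :
    ∑ A : Inv g, Φ (cls (res g A)) (cls (quo g A)) =
      ∑ A : Inv h, Φ (cls (res h A)) (cls (quo h A)) := by
  obtain ⟨e, he⟩ := (cls_eq_iff g h).1 hgh
  refine Fintype.sum_equiv (Inv.congr e he) _ _ fun A => ?_
  rw [cls_res_congr, cls_quo_congr]

theorem hall_cls (φ ψ : Iso F → K) (g : V ≃ₗ[F] V) : hall φ ψ (cls g) = hallRaw φ ψ g :=
  sum_inv_congr (fun a b => φ a * ψ b) (cls_out _)

/-- Conjugation of automorphisms along an equivalence. -/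
def autCongr (e : V ≃ₗ[F] W) : (V ≃ₗ[F] V) ≃* (W ≃ₗ[F] W) where
  toFun u := (e.symm.trans u).trans e
  invFun u := (e.trans u).trans e.symm
  left_inv u := by ext v; simp
  right_inv u := by ext v; simp
  map_mul' u v := by ext w; simp

@[simp] theorem autCongr_apply (e : V ≃ₗ[F] W) (u : V ≃ₗ[F] V) (w : W) :
    autCongr e u w = e (u (e.symm w)) := rfl

theorem cls_autCongr (e : V ≃ₗ[F] W) (u : V ≃ₗ[F] V) : cls (autCongr e u) = cls u :=
  (cls_eq e fun v => by simp).symm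

theorem isNilpotent_congr {u : Module.End F V} {w : Module.End F W} (e : V ≃ₗ[F] W)
    (he : ∀ v, e (u v) = w (e v)) : IsNilpotent u ↔ IsNilpotent w := by
  have hp : ∀ n v, e ((u ^ n) v) = (w ^ n) (e v) := by
    intro n
    induction n with
    | zero => intro v; rfl
    | succ n ih => intro v; rw [pow_succ, pow_succ, Module.End.mul_apply, ih, he]; rfl
  constructor
  · rintro ⟨n, hn⟩
    refine ⟨n, LinearMap.ext fun x => ?_⟩
    obtain ⟨v, rfl⟩ := e.surjective x
    rw [← hp, hn]; simp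
  · rintro ⟨n, hn⟩
    refine ⟨n, LinearMap.ext fun v => e.injective ?_⟩
    rw [hp, hn]; simp

theorem unip_congr {u : V ≃ₗ[F] V} {w : W ≃ₗ[F] W} (h : cls u = cls w) :
    IsNilpotent ((u : Module.End F V) - 1) ↔ IsNilpotent ((w : Module.End F W) - 1) := by
  obtain ⟨e, he⟩ := (cls_eq_iff u w).1 h
  exact isNilpotent_congr e fun v => by simp [he]

theorem thetaRaw_congr (φ : Iso F → K) {g : V ≃ₗ[F] V} {h : W ≃ₗ[F] W} (hgh : cls g = cls h) :
    thetaRaw φ g = thetaRaw φ h := by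
  obtain ⟨e, he⟩ := (cls_eq_iff g h).1 hgh
  refine Fintype.sum_equiv (autCongr e).toEquiv _ _ fun u => ?_
  have h1 : cls (autCongr e u * h) = cls (u * g) :=
    (cls_eq e fun v => by simp [← he]).symm
  simp only [MulEquiv.toEquiv_eq_coe, MulEquiv.coe_toEquiv, h1,
    unip_congr (cls_autCongr e u)]

theorem theta_cls (φ : Iso F → K) (g : V ≃ₗ[F] V) : theta φ (cls g) = thetaRaw φ g :=
  thetaRaw_congr φ (cls_out _)

theorem starRaw_congr (φ ψ : Iso F → K) {g : V ≃ₗ[F] V} {h : W ≃ₗ[F] W} (hgh : cls g = cls h) :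
    starRaw φ ψ g = starRaw φ ψ h := by
  obtain ⟨e, he⟩ := (cls_eq_iff g h).1 hgh
  have he' : ∀ v, e (g.symm v) = h.symm (e v) := fun v => h.injective (by rw [← he]; simp)
  unfold starRaw
  refine Fintype.sum_equiv (Submodule.orderIsoMapComap e).toEquiv _ _ fun A => ?_
  refine Fintype.sum_equiv (Submodule.orderIsoMapComap e).toEquiv _ _ fun B => ?_
  let eA : A ≃ₗ[F] (A.map (e : V →ₗ[F] W)) := e.ofSubmodules A _ rfl
  let eB : B ≃ₗ[F] (B.map (e : V →ₗ[F] W)) := e.ofSubmodules B _ rfl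
  refine Fintype.sum_equiv (autCongr eA).toEquiv _ _ fun x₁ => ?_
  refine Fintype.sum_equiv (autCongr eB).toEquiv _ _ fun x₂ => ?_
  have hmem : ∀ (C : Submodule F V) (v : V), e v ∈ C.map (e : V →ₗ[F] W) ↔ v ∈ C := by
    intro C v
    constructor
    · rintro ⟨w, hw, hwv⟩; rwa [← e.injective hwv]
    · intro hv; exact ⟨v, hv, rfl⟩
  have hiff : (IsCompl A B ∧ (∀ a : A, g.symm (x₁ a) - a ∈ B) ∧ (∀ b : B, g b - x₂ b ∈ A)) ↔
      (IsCompl (A.map (e : V →ₗ[F] W)) (B.map (e : V →ₗ[F] W)) ∧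
        (∀ a : A.map (e : V →ₗ[F] W), h.symm (autCongr eA x₁ a) - a ∈ B.map (e : V →ₗ[F] W)) ∧
        (∀ b : B.map (e : V →ₗ[F] W), h b - autCongr eB x₂ b ∈ A.map (e : V →ₗ[F] W))) := by
    refine and_congr (Submodule.orderIsoMapComap e).isCompl_iff (and_congr ?_ ?_)
    · refine eA.toEquiv.forall_congr fun a => ?_
      rw [← hmem B, map_sub, he']
      simp only [LinearEquiv.coe_toEquiv, autCongr_apply, LinearEquiv.symm_apply_apply]
      rfl
    · refine eB.toEquiv.forall_congr fun b => ?_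
      rw [← hmem A, map_sub, he]
      simp only [LinearEquiv.coe_toEquiv, autCongr_apply, LinearEquiv.symm_apply_apply]
      rfl
  have := cls_autCongr eA x₁
  have := cls_autCongr eB x₂
  by_cases hc : IsCompl A B ∧ (∀ a : A, g.symm (x₁ a) - a ∈ B) ∧ (∀ b : B, g b - x₂ b ∈ A)
  · rw [if_pos hc]
    refine Eq.trans ?_ (if_pos (hiff.1 hc)).symm
    erw [cls_autCongr eA x₁, cls_autCongr eB x₂]
  · rw [if_neg hc]
    exact (if_neg (fun h' => hc (hiff.2 h'))).symm

theorem star_cls (φ ψ : Iso F → K) (g : V ≃ₗ[F] V) : star φ ψ (cls g) = starRaw φ ψ g :=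
  starRaw_congr φ ψ (cls_out _)

theorem dim_cls (g : V ≃ₗ[F] V) : (cls g).dim = Module.finrank F V := by
  obtain ⟨e, -⟩ := (cls_eq_iff _ _).1 (cls_out (cls g))
  exact e.finrank_eq

theorem Iso.ind {P : Iso F → Prop}
    (h : ∀ (V : Type) [AddCommGroup V] [Module F V] [Finite V] (g : V ≃ₗ[F] V), P (cls g))
    (M : Iso F) : P M := by
  rw [← cls_out M]; exact h _ _

end Pool.Agent.H815Z
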