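import Mathlib

/-! Isomorphism classes of pairs (finite vector space, automorphism); Hall product, convolution
with the unipotent set, and the stable product, on functions of these classes. -/

namespace Pool.Agent.H815Z

open scoped Classical

set_option linter.unusedSectionVars false

/-- A finite vector space with an automorphism. -/
structure Obj (F : Type) [Field F] : Type 1 where
  V : Type
  [acg : AddCommGroup V]
  [mod : Module F V]
  [fin : Finite V]
  g : V ≃ₗ[F] V

attribute [instance] Obj.acg Obj.mod Obj.fin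

variable {F : Type} [Field F]

instance Obj.setoid : Setoid (Obj F) where
  r X Y := ∃ e : X.V ≃ₗ[F] Y.V, ∀ v, e (X.g v) = Y.g (e v)
  iseqv :=
    { refl := fun X => ⟨LinearEquiv.refl F X.V, fun _ => rfl⟩
      symm := by
        rintro X Y ⟨e, he⟩
        refine ⟨e.symm, fun v => e.injective ?_⟩
        rw [he]; simp
      trans := by
        rintro X Y Z ⟨e, he⟩ ⟨e', he'⟩
        exact ⟨e.trans e', fun v => by simp [he, he']⟩ }

variable (F) in
/-- Isomorphism classes. -/
def Iso : Type 1 := Quotient (Obj.setoid (F := F))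

section
variable {V W : Type} [AddCommGroup V] [Module F V] [Finite V] [AddCommGroup W] [Module F W]
  [Finite W]

/-- The class of an automorphism. -/
def cls (g : V ≃ₗ[F] V) : Iso F := Quotient.mk _ ⟨V, g⟩

theorem cls_eq_iff (g : V ≃ₗ[F] V) (h : W ≃ₗ[F] W) :
    cls g = cls h ↔ ∃ e : V ≃ₗ[F] W, ∀ v, e (g v) = h (e v) := Quotient.eq

theorem cls_eq {g : V ≃ₗ[F] V} {h : W ≃ₗ[F] W} (e : V ≃ₗ[F] W) (he : ∀ v, e (g v) = h (e v)) :
    cls g = cls h := (cls_eq_iff g h).2 ⟨e, he⟩

instance finiteEquiv : Finite (V ≃ₗ[F] W) :=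
  Finite.of_injective (fun e : V ≃ₗ[F] W => (e : V → W)) DFunLike.coe_injective

instance finiteHom : Finite (V →ₗ[F] W) :=
  Finite.of_injective (fun e : V →ₗ[F] W => (e : V → W)) DFunLike.coe_injective

instance finiteQuot (A : Submodule F V) : Finite (V ⧸ A) :=
  Finite.of_surjective _ (Submodule.Quotient.mk_surjective A)

noncomputable instance fintypeEquiv : Fintype (V ≃ₗ[F] W) := Fintype.ofFinite _

noncomputable instance fintypeSub : Fintype (Submodule F V) := Fintype.ofFinite _

noncomputable instance fintypeHom : Fintype (V →ₗ[F] W) := Fintype.ofFinite _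

/-- Invariant subspaces. -/
def Inv (g : V ≃ₗ[F] V) : Type := {A : Submodule F V // A.map (g : V →ₗ[F] V) = A}

noncomputable instance (g : V ≃ₗ[F] V) : Fintype (Inv g) := by
  unfold Inv; exact Fintype.ofFinite _

/-- Restriction to an invariant subspace. -/
def res (g : V ≃ₗ[F] V) (A : Inv g) : A.1 ≃ₗ[F] A.1 := g.ofSubmodules A.1 A.1 A.2

/-- The map induced on the quotient by an invariant subspace. -/
def quo (g : V ≃ₗ[F] V) (A : Inv g) : (V ⧸ A.1) ≃ₗ[F] (V ⧸ A.1) :=
  Submodule.Quotient.equiv A.1 A.1 g A.2

@[simp] theorem res_apply (g : V ≃ₗ[F] V) (A : Inv g) (a : A.1) : (res g A a : V) = g a := rfl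

@[simp] theorem quo_mk (g : V ≃ₗ[F] V) (A : Inv g) (v : V) :
    quo g A (Submodule.Quotient.mk v) = Submodule.Quotient.mk (g v) := rfl

variable {K : Type*} [CommRing K]

/-- Hall product (parabolic induction), evaluated at an automorphism. -/
noncomputable def hallRaw (φ ψ : Iso F → K) (g : V ≃ₗ[F] V) : K :=
  ∑ A : Inv g, φ (cls (res g A)) * ψ (cls (quo g A))

/-- Convolution with the set of unipotent elements, evaluated at an automorphism. -/
noncomputable def thetaRaw (φ : Iso F → K) (g : V ≃ₗ[F] V) : K :=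
  ∑ u : V ≃ₗ[F] V, if IsNilpotent ((u : Module.End F V) - 1) then φ (cls (u * g)) else 0

/-- The stable product, evaluated at an automorphism: sum over pairs of complementary subspaces
`A`, `B`; `x₁` is the Schur complement block and `x₂` the lower diagonal block of `g`. -/
noncomputable def starRaw (φ ψ : Iso F → K) (g : V ≃ₗ[F] V) : K :=
  ∑ A : Submodule F V, ∑ B : Submodule F V, ∑ x₁ : A ≃ₗ[F] A, ∑ x₂ : B ≃ₗ[F] B,
    if IsCompl A B ∧ (∀ a : A, g.symm (x₁ a) - a ∈ B) ∧ (∀ b : B, g b - x₂ b ∈ A) then
      φ (cls x₁) * ψ (cls x₂) else 0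

end

variable {K : Type*} [CommRing K]

/-- Hall product. -/
noncomputable def hall (φ ψ : Iso F → K) : Iso F → K := fun M => hallRaw φ ψ (Quotient.out M).g

/-- Convolution with the unipotent set. -/
noncomputable def theta (φ : Iso F → K) : Iso F → K := fun M => thetaRaw φ (Quotient.out M).g

/-- Stable product. -/
noncomputable def star (φ ψ : Iso F → K) : Iso F → K := fun M => starRaw φ ψ (Quotient.out M).g

theorem cls_out (M : Iso F) : cls (Quotient.out M).g = M := Quotient.out_eq M

/-- Dimension of a class. -/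
noncomputable def Iso.dim (M : Iso F) : ℕ := Module.finrank F (Quotient.out M).V

end Pool.Agent.H815Z
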