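import Pool.Agent.H815Z.Kaw2

/-! The Kawanaka identity: convolution with the unipotent set turns the Hall product into the
stable product. -/

set_option autoImplicit false

namespace Pool.Agent.H815Z

open scoped Classical

namespace Kaw

variable {F : Type} [Field F] {V : Type} [AddCommGroup V] [Module F V] [Finite V]

theorem un_mul_comm (a b : V ≃ₗ[F] V) :
    Un ((a * b : V ≃ₗ[F] V) : V →ₗ[F] V) ↔ Un ((b * a : V ≃ₗ[F] V) : V →ₗ[F] V) :=
  unip_congr (cls_eq b fun _ => rfl)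

omit [Finite V] in
theorem un_inv {a : V ≃ₗ[F] V} (h : Un (a : V →ₗ[F] V)) : Un ((a⁻¹ : V ≃ₗ[F] V) : V →ₗ[F] V) := by
  unfold Un at h ⊢
  have e : ((a⁻¹ : V ≃ₗ[F] V) : Module.End F V) - 1 =
      (-((a⁻¹ : V ≃ₗ[F] V) : Module.End F V)) * ((a : Module.End F V) - 1) := by
    ext v
    simp
  rw [e]
  refine Commute.isNilpotent_mul_left ?_ h
  ext v
  simp

omit [Finite V] in
theorem exists_equiv {s : V →ₗ[F] V} (h : Un s) : ∃ e : V ≃ₗ[F] V, ∀ v, e v = s v := by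
  have h1 : IsUnit (s : Module.End F V) := by
    have := IsNilpotent.isUnit_add_one h
    rwa [sub_add_cancel] at this
  exact ⟨LinearEquiv.ofBijective s ((Module.End.isUnit_iff _).1 h1), fun _ => rfl⟩

theorem theta_alt (φ : Iso F → ℂ) (x : V ≃ₗ[F] V) : theta φ (cls x) =
    ∑ y : V ≃ₗ[F] V, if Un ((y * x⁻¹ : V ≃ₗ[F] V) : V →ₗ[F] V) then φ (cls y) else 0 := by
  rw [theta_cls]
  refine Fintype.sum_equiv (Equiv.mulRight x) _ _ fun u => ?_
  simp only [Equiv.coe_mulRight, mul_inv_cancel_right]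
  rfl

theorem hall_alt (φ ψ : Iso F → ℂ) (h : V ≃ₗ[F] V) : hall φ ψ (cls h) =
    ∑ A : Submodule F V, ∑ y₁ : A ≃ₗ[F] A, ∑ y₂ : (V ⧸ A) ≃ₗ[F] (V ⧸ A),
      if (∀ a : A, h a = y₁ a) ∧ (∀ v, A.mkQ (h v) = y₂ (A.mkQ v)) then
        φ (cls y₁) * ψ (cls y₂) else 0 := by
  rw [hall_cls]
  refine Finset.sum_of_injOn (fun A : Inv h => A.1) (fun _ _ _ _ e => Subtype.ext e)
    (fun _ _ => Finset.mem_coe.2 (Finset.mem_univ _)) ?_ ?_
  · intro A _ hA
    refine Finset.sum_eq_zero fun y₁ _ => Finset.sum_eq_zero fun y₂ _ => if_neg fun hc => hA ?_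
    exact ⟨Inv.mk' A (fun v hv => by rw [hc.1 ⟨v, hv⟩]; exact (y₁ _).2),
      Finset.mem_coe.2 (Finset.mem_univ _), rfl⟩
  · intro A _
    rw [Finset.sum_eq_single (res h A), Finset.sum_eq_single (quo h A),
      if_pos ⟨fun _ => rfl, fun _ => rfl⟩]
    · intro y _ hy
      refine if_neg fun hc => hy (LinearEquiv.ext fun c => ?_)
      obtain ⟨v, rfl⟩ := A.1.mkQ_surjective c
      exact (hc.2 v).symm
    · simp
    · intro y _ hy
      exact Finset.sum_eq_zero fun _ _ => if_neg fun hc =>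
        hy (LinearEquiv.ext fun a => Subtype.ext (hc.1 a).symm)
    · simp

/-- the condition of the stable product in terms of sections -/
def SC (g : V ≃ₗ[F] V) (A : Submodule F V)
    (t : ((V ⧸ A) →ₗ[F] V) × (A ≃ₗ[F] A) × ((V ⧸ A) ≃ₗ[F] (V ⧸ A))) : Prop :=
  (∀ c, A.mkQ (t.1 c) = c) ∧
    (∀ a : A, g.symm (t.2.1 a) - t.1 (A.mkQ (g.symm (t.2.1 a))) = a) ∧
    ∀ c, t.2.2 c = A.mkQ (g (t.1 c))

theorem star_alt (Φ Ψ : Iso F → ℂ) (g : V ≃ₗ[F] V) : star Φ Ψ (cls g) =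
    ∑ A : Submodule F V, ∑ t : ((V ⧸ A) →ₗ[F] V) × (A ≃ₗ[F] A) × ((V ⧸ A) ≃ₗ[F] (V ⧸ A)),
      if SC g A t then Φ (cls t.2.1) * Ψ (cls t.2.2) else 0 := by
  rw [star_cls]
  refine Finset.sum_congr rfl fun A _ => ?_
  have hq : ∀ x, A.mkQ x = 0 ↔ x ∈ A := fun x => by
    rw [Submodule.mkQ_apply, Submodule.Quotient.mk_eq_zero]
  symm
  rw [Fintype.sum_prod_type, ← Finset.sum_filter_of_ne
    (p := fun j : (V ⧸ A) →ₗ[F] V => ∀ c, A.mkQ (j c) = c)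
    (fun j _ hj => by
      by_contra hc
      exact hj (Finset.sum_eq_zero fun x _ => if_neg fun h => hc h.1))]
  refine Finset.sum_of_injOn (fun j => LinearMap.range j) ?_
    (fun _ _ => Finset.mem_coe.2 (Finset.mem_univ _)) ?_ ?_
  · intro j hj j' hj' e
    have h1 := (Finset.mem_filter.1 (Finset.mem_coe.1 hj)).2
    have h2 := (Finset.mem_filter.1 (Finset.mem_coe.1 hj')).2
    refine LinearMap.ext fun c => ?_
    have e' : LinearMap.range j = LinearMap.range j' := e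
    obtain ⟨d, hd⟩ : j c ∈ LinearMap.range j' := e' ▸ LinearMap.mem_range_self j c
    rw [← hd, ← h2 d, hd, h1]
  · intro B _ hB
    refine Finset.sum_eq_zero fun y₁ _ => Finset.sum_eq_zero fun y₂ _ => if_neg fun hc => hB ?_
    let e := Submodule.quotientEquivOfIsCompl A B hc.1
    refine ⟨B.subtype ∘ₗ (e : (V ⧸ A) →ₗ[F] B), Finset.mem_coe.2 (Finset.mem_filter.2
      ⟨Finset.mem_univ _, fun c => ?_⟩), ?_⟩
    · exact Submodule.mk_quotientEquivOfIsCompl_apply hc.1 c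
    · simp
  · intro j hj
    have h1 := (Finset.mem_filter.1 hj).2
    have hi : Function.Injective j := fun c d h => by rw [← h1 c, h, h1]
    have hr : ∀ v, v ∈ LinearMap.range j ↔ j (A.mkQ v) = v := fun v =>
      ⟨fun ⟨c, hc⟩ => by rw [← hc, h1], fun h => ⟨_, h⟩⟩
    have hc : IsCompl A (LinearMap.range j) := by
      refine ⟨Submodule.disjoint_def.2 fun v a b => ?_, codisjoint_iff.2 ?_⟩
      · rw [← (hr v).1 b, (hq v).2 a, map_zero]
      · refine Submodule.eq_top_iff'.2 fun v => Submodule.mem_sup.2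
          ⟨v - j (A.mkQ v), (hq _).1 (by rw [map_sub, h1, sub_self]), _, ⟨A.mkQ v, rfl⟩, by simp⟩
    let e := LinearEquiv.ofInjective j hi
    rw [Fintype.sum_prod_type]
    refine Finset.sum_congr rfl fun x₁ _ => ?_
    refine Fintype.sum_equiv (autCongr e).toEquiv _ _ fun z => ?_
    simp only [MulEquiv.toEquiv_eq_coe, MulEquiv.coe_toEquiv, cls_autCongr]
    refine if_congr (and_congr ⟨fun _ => hc, fun _ => h1⟩ (and_congr ?_ ?_)) rfl rfl
    · refine forall_congr' fun a => ?_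
      rw [hr, map_sub, (hq a).2 a.2, sub_zero, sub_eq_iff_eq_add, eq_sub_iff_add_eq, add_comm,
        eq_comm]
    · refine e.toEquiv.forall_congr fun c => ?_
      simp only [LinearEquiv.coe_toEquiv, autCongr_apply, LinearEquiv.symm_apply_apply]
      rw [← hq, map_sub, sub_eq_zero, eq_comm]
      change _ ↔ A.mkQ (g (j c)) = A.mkQ (j (z c))
      rw [h1]

theorem sumL {α β : Type} [Fintype α] [Fintype β] (P : α → Prop) (c : α → β → Prop)
    [∀ u, Decidable (P u)] [∀ u y, Decidable (c u y)] (f : β → ℂ) :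
    (∑ u, if P u then ∑ y, (if c u y then f y else 0) else 0) =
      ∑ y, (cnt (fun u => P u ∧ c u y) : ℂ) * f y := by
  simp only [cnt_eq_sum]
  push_cast
  simp only [Finset.sum_mul]
  rw [Finset.sum_comm]
  refine Finset.sum_congr rfl fun u _ => ?_
  by_cases h : P u <;> simp [h]

theorem cntL (g : V ≃ₗ[F] V) (A : Submodule F V) (y₁ : A ≃ₗ[F] A) (y₂ : (V ⧸ A) ≃ₗ[F] (V ⧸ A)) :
    cnt (fun u : V ≃ₗ[F] V => Un (u : V →ₗ[F] V) ∧ (∀ a : A, (u * g) a = y₁ a) ∧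
      (∀ v, A.mkQ ((u * g) v) = y₂ (A.mkQ v))) =
    cnt (LS A.subtype ((g.symm : V →ₗ[F] V) ∘ₗ A.subtype ∘ₗ (y₁ : A →ₗ[F] A)) A.mkQ
      ((y₂.symm : (V ⧸ A) →ₗ[F] (V ⧸ A)) ∘ₗ A.mkQ ∘ₗ (g : V →ₗ[F] V))) := by
  have key : ∀ (u : V ≃ₗ[F] V) (s : V →ₗ[F] V), (∀ v, g (s v) = u (g v)) →
      ((Un (u : V →ₗ[F] V) ∧ (∀ a : A, (u * g) a = y₁ a) ∧
      (∀ v, A.mkQ ((u * g) v) = y₂ (A.mkQ v))) ↔
      LS A.subtype ((g.symm : V →ₗ[F] V) ∘ₗ A.subtype ∘ₗ (y₁ : A →ₗ[F] A)) A.mkQ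
      ((y₂.symm : (V ⧸ A) →ₗ[F] (V ⧸ A)) ∘ₗ A.mkQ ∘ₗ (g : V →ₗ[F] V)) s) := by
    intro u s h
    have e : Un s ↔ Un (u : V →ₗ[F] V) := isNilpotent_congr g fun v => by simp [h]
    unfold LS
    rw [e]
    simp only [LinearMap.comp_apply, LinearEquiv.coe_coe, LinearEquiv.eq_symm_apply,
      LinearEquiv.symm_apply_eq, h]
    exact ⟨fun h => ⟨h.2.1, h.2.2, h.1⟩, fun h => ⟨h.2.2, h.1, h.2.1⟩⟩
  refine cnt_rel (fun u s => ∀ v, g (s v) = u (g v)) ?_ ?_ ?_ ?_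
  · intro u hu
    have h : ∀ v, g (((g⁻¹ * u * g : V ≃ₗ[F] V) : V →ₗ[F] V) v) = u (g v) := fun v => by simp
    exact ⟨_, (key u _ h).1 hu, h⟩
  · intro s hs
    obtain ⟨e, he⟩ := exists_equiv hs.2.2
    have h : ∀ v, g (s v) = (g * e * g⁻¹ : V ≃ₗ[F] V) (g v) := fun v => by simp [he]
    exact ⟨_, (key _ s h).2 hs, h⟩
  · intro u s s' _ _ _ h h'
    exact LinearMap.ext fun v => g.injective ((h v).trans (h' v).symm)
  · intro u u' s _ _ _ h h'
    refine LinearEquiv.ext fun v => ?_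
    obtain ⟨v, rfl⟩ := g.surjective v
    exact (h v).symm.trans (h' v)

theorem cntR (g : V ≃ₗ[F] V) (A : Submodule F V) (y₁ : A ≃ₗ[F] A) (y₂ : (V ⧸ A) ≃ₗ[F] (V ⧸ A)) :
    cnt (fun t : ((V ⧸ A) →ₗ[F] V) × (A ≃ₗ[F] A) × ((V ⧸ A) ≃ₗ[F] (V ⧸ A)) => SC g A t ∧
      Un ((y₁ * t.2.1⁻¹ : A ≃ₗ[F] A) : A →ₗ[F] A) ∧
      Un ((y₂ * t.2.2⁻¹ : (V ⧸ A) ≃ₗ[F] (V ⧸ A)) : (V ⧸ A) →ₗ[F] (V ⧸ A))) =
    cnt (RS A.subtype ((g.symm : V →ₗ[F] V) ∘ₗ A.subtype ∘ₗ (y₁ : A →ₗ[F] A)) A.mkQ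
      ((y₂.symm : (V ⧸ A) →ₗ[F] (V ⧸ A)) ∘ₗ A.mkQ ∘ₗ (g : V →ₗ[F] V))) := by
  refine cnt_rel (fun t j => t.1 = j) ?_ ?_ ?_ ?_
  · rintro ⟨j, x, z⟩ ⟨⟨h1, h2, h3⟩, u1, u2⟩
    refine ⟨j, ⟨h1, ⟨_, (un_mul_comm _ _).1 u1, fun a => ?_⟩, ?_⟩, rfl⟩
    · have := h2 (x.symm (y₁ a))
      simp only [LinearEquiv.apply_symm_apply] at this
      exact this.symm
    · have := (un_mul_comm _ _).1 (mul_inv_rev y₂ z⁻¹ ▸ un_inv u2)
      convert this using 1
      refine LinearMap.ext fun c => ?_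
      simp only [LinearMap.comp_apply, LinearEquiv.coe_coe, inv_inv] at h3 ⊢
      rw [← h3]
      rfl
  · rintro j ⟨h1, ⟨a, a1, a2⟩, h3⟩
    obtain ⟨e, he⟩ := exists_equiv a1
    obtain ⟨f, hf⟩ := exists_equiv h3
    have e1 : (e : A →ₗ[F] A) = a := LinearMap.ext he
    have f1 : Un (f : (V ⧸ A) →ₗ[F] (V ⧸ A)) := by rw [LinearMap.ext hf] ; exact h3
    refine ⟨(j, y₁ * e⁻¹, y₂ * f), ⟨⟨h1, fun b => ?_, fun c => ?_⟩, ?_, ?_⟩, rfl⟩
    · have := a2 (e.symm b)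
      rw [← he, LinearEquiv.apply_symm_apply] at this
      exact this.symm
    · change y₂ (f c) = _
      rw [hf]
      simp
    · rw [un_mul_comm]
      simpa [e1] using a1
    · rw [un_mul_comm]
      simpa using un_inv f1
  · intro _ _ _ _ _ _ h h'
    exact h.symm.trans h'
  · rintro ⟨j, x, z⟩ ⟨j', x', z'⟩ _ ⟨⟨-, h2, h3⟩, -⟩ ⟨⟨-, h2', h3'⟩, -⟩ _ rfl rfl
    refine Prod.ext rfl (Prod.ext ?_ (LinearEquiv.ext fun c => (h3 c).trans (h3' c).symm))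
    refine inv_injective (LinearEquiv.ext fun a => Subtype.ext ?_)
    have e1 := h2 (x.symm a)
    have e2 := h2' (x'.symm a)
    simp only [LinearEquiv.apply_symm_apply] at e1 e2
    exact e1.symm.trans e2

end Kaw

open Kaw in
theorem theta_hall {F : Type} [Field F] [Fintype F] (φ ψ : Iso F → ℂ) :
    theta (hall φ ψ) = star (theta φ) (theta ψ) := by
  funext M
  induction M using Iso.ind with
  | h V g =>
  rw [theta_cls, star_alt]
  unfold thetaRaw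
  simp only [hall_alt, theta_alt, Finset.sum_mul_sum, ite_mul, mul_ite, zero_mul, mul_zero,
    ← ite_and, ← Fintype.sum_prod_type']
  have e : ∀ (P : Prop) (f : Submodule F V → ℂ),
      (if P then ∑ A, f A else 0) = ∑ A, if P then f A else 0 := fun P f => by
    by_cases h : P <;> simp [h]
  simp only [e]
  rw [Finset.sum_comm]
  refine Finset.sum_congr rfl fun A _ => ?_
  rw [sumL, sumL]
  refine Finset.sum_congr rfl fun y _ => ?_
  congr 2
  refine (cntL g A y.1 y.2).trans ((core _ _ _ _ _ _ _ _ rfl ?_).trans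
    ((cntR g A y.1 y.2).symm.trans (cnt_congr fun t => by tauto)))
  refine ⟨fun a h => Subtype.ext h, A.mkQ_surjective, fun a => by simp, fun v hv => ?_,
    fun a => by simp⟩
  rw [Submodule.mkQ_apply, Submodule.Quotient.mk_eq_zero] at hv
  exact ⟨⟨v, hv⟩, rfl⟩

end Pool.Agent.H815Z
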