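import Pool.Agent.H815Z.HallBasic

/-! Tools for the Kawanaka identity: counting, lifting and descending linear maps. -/

set_option autoImplicit false

namespace Pool.Agent.H815Z.Kaw

open scoped Classical

/-- number of solutions -/
noncomputable def cnt {α : Type} (P : α → Prop) : ℤ := Nat.card {a // P a}

theorem cnt_eq_sum {α : Type} [Fintype α] (P : α → Prop) :
    cnt P = ∑ a, if P a then 1 else 0 := by
  unfold cnt
  rw [Nat.card_eq_fintype_card, Fintype.card_subtype, Finset.card_filter]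
  push_cast
  rfl

theorem cnt_congr {α : Type} {P Q : α → Prop} (h : ∀ a, P a ↔ Q a) : cnt P = cnt Q := by
  rw [show P = Q from funext fun a => propext (h a)]

theorem cnt_zero {α : Type} {P : α → Prop} (h : ∀ a, ¬ P a) : cnt P = 0 := by
  unfold cnt
  have : IsEmpty {a // P a} := ⟨fun a => h a.1 a.2⟩
  simp

theorem cnt_rel {α β : Type} {P : α → Prop} {Q : β → Prop} (r : α → β → Prop)
    (h1 : ∀ a, P a → ∃ b, Q b ∧ r a b) (h2 : ∀ b, Q b → ∃ a, P a ∧ r a b)
    (u1 : ∀ a b b', P a → Q b → Q b' → r a b → r a b' → b = b')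
    (u2 : ∀ a a' b, P a → P a' → Q b → r a b → r a' b → a = a') : cnt P = cnt Q := by
  choose f hf using h1
  unfold cnt
  congr 1
  refine Nat.card_eq_of_bijective (fun a => ⟨f a.1 a.2, (hf a.1 a.2).1⟩) ⟨?_, ?_⟩
  · intro a a' h
    have h' : f a.1 a.2 = f a'.1 a'.2 := congrArg Subtype.val h
    exact Subtype.ext (u2 _ _ _ a.2 a'.2 (hf a.1 a.2).1 (hf a.1 a.2).2 (h' ▸ (hf a'.1 a'.2).2))
  · intro b
    obtain ⟨a, ha, hr⟩ := h2 b.1 b.2
    exact ⟨⟨a, ha⟩, Subtype.ext (u1 a _ _ ha (hf a ha).1 b.2 (hf a ha).2 hr)⟩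

theorem cnt_prod {α β : Type} (P : α → Prop) :
    cnt (fun x : α × β => P x.1) = cnt P * Nat.card β := by
  unfold cnt
  rw [← Nat.cast_mul, ← Nat.card_prod]
  congr 1
  exact Nat.card_congr ⟨fun x => (⟨x.1.1, x.2⟩, x.1.2), fun x => ⟨(x.1.1, x.2), x.1.2⟩,
    fun _ => rfl, fun _ => rfl⟩

theorem exists_mu (α : Type) [PartialOrder α] [OrderBot α] [Fintype α] :
    ∃ μ : α → ℤ, μ ⊥ = 1 ∧ ∀ U, U ≠ ⊥ → ∑ X, (if X ≤ U then μ X else 0) = 0 := by
  let _ : LocallyFiniteOrder α := Fintype.toLocallyFiniteOrder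
  refine ⟨fun X => IncidenceAlgebra.mu ℤ ⊥ X, IncidenceAlgebra.mu_self ⊥, fun U hU => ?_⟩
  have h := IncidenceAlgebra.sum_Icc_mu_right (𝕜 := ℤ) (⊥ : α) U
  rw [if_neg hU.symm] at h
  rw [← Finset.sum_filter]
  refine Eq.trans (Finset.sum_congr ?_ fun _ _ => rfl) h
  ext X
  simp

theorem mu_sum {α β : Type} [PartialOrder α] [OrderBot α] [Fintype α] [Finite β] {μ : α → ℤ}
    (hμ : ∀ U, U ≠ ⊥ → ∑ X, (if X ≤ U then μ X else 0) = 0) (P : β → Prop) (W : β → α)
    (hW : ∀ b, P b → W b ≠ ⊥) : ∑ X, μ X * cnt (fun b => P b ∧ X ≤ W b) = 0 := by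
  have := Fintype.ofFinite β
  simp only [cnt_eq_sum, Finset.mul_sum]
  rw [Finset.sum_comm]
  refine Finset.sum_eq_zero fun b _ => ?_
  by_cases h : P b
  · refine Eq.trans (Finset.sum_congr rfl fun X _ => ?_) (hμ _ (hW b h))
    by_cases h' : X ≤ W b <;> simp [h, h']
  · simp [h]

variable {F : Type} [Field F] {U V W : Type} [AddCommGroup U] [Module F U] [AddCommGroup V]
  [Module F V] [AddCommGroup W] [Module F W]

theorem exists_sec (π : V →ₗ[F] W) (h : Function.Surjective π) :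
    ∃ t : W →ₗ[F] V, ∀ w, π (t w) = w := by
  obtain ⟨t, ht⟩ := π.exists_rightInverse_of_surjective (LinearMap.range_eq_top.2 h)
  exact ⟨t, fun w => LinearMap.congr_fun ht w⟩

theorem exists_desc (π : V →ₗ[F] W) (h : Function.Surjective π) (f : V →ₗ[F] U)
    (hf : ∀ v, π v = 0 → f v = 0) : ∃ g : W →ₗ[F] U, ∀ v, g (π v) = f v := by
  obtain ⟨t, ht⟩ := exists_sec π h
  refine ⟨f ∘ₗ t, fun v => ?_⟩
  have := hf (t (π v) - v) (by rw [map_sub, ht, sub_self])
  rw [map_sub, sub_eq_zero] at this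
  exact this

theorem exists_lift (m : W →ₗ[F] U) (hm : ∀ w, m w = 0 → w = 0) (h : V →ₗ[F] U)
    (hh : ∀ v, ∃ w, m w = h v) : ∃ s : V →ₗ[F] W, ∀ v, m (s v) = h v := by
  obtain ⟨r, hr⟩ := m.exists_leftInverse_of_injective (LinearMap.ker_eq_bot'.2 hm)
  refine ⟨r ∘ₗ h, fun v => ?_⟩
  obtain ⟨w, hw⟩ := hh v
  have : r (m w) = w := LinearMap.congr_fun hr w
  rw [LinearMap.comp_apply, ← hw, this]

theorem exists_lift2 {U' : Type} [AddCommGroup U'] [Module F U'] (m : W →ₗ[F] U)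
    (m' : W →ₗ[F] U') (hm : ∀ w, m w = 0 → m' w = 0 → w = 0) (h : V →ₗ[F] U) (h' : V →ₗ[F] U')
    (hh : ∀ v, ∃ w, m w = h v ∧ m' w = h' v) :
    ∃ s : V →ₗ[F] W, ∀ v, m (s v) = h v ∧ m' (s v) = h' v := by
  obtain ⟨s, hs⟩ := exists_lift (m.prod m') (fun w hw => hm w (congrArg Prod.fst hw)
    (congrArg Prod.snd hw)) (h.prod h') (fun v => by
      obtain ⟨w, h1, h2⟩ := hh v
      exact ⟨w, Prod.ext h1 h2⟩)
  exact ⟨s, fun v => ⟨congrArg Prod.fst (hs v), congrArg Prod.snd (hs v)⟩⟩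

/-- unipotent endomorphisms -/
def Un (s : V →ₗ[F] V) : Prop := IsNilpotent ((s : Module.End F V) - 1)

theorem un_desc {π : V →ₗ[F] W} (h : Function.Surjective π) {s : V →ₗ[F] V} {s' : W →ₗ[F] W}
    (hs : ∀ v, s' (π v) = π (s v)) (hk : ∀ x, π x = 0 → s x = x) : Un s ↔ Un s' := by
  have hp : ∀ (n : ℕ) v, (((s' : Module.End F W) - 1) ^ n) (π v) =
      π ((((s : Module.End F V) - 1) ^ n) v) := by
    intro n
    induction n with
    | zero => intro v; rfl
    | succ n ih =>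
      intro v
      rw [pow_succ, pow_succ, Module.End.mul_apply, Module.End.mul_apply, ← ih]
      simp [hs]
  constructor
  · rintro ⟨n, hn⟩
    refine ⟨n, LinearMap.ext fun w => ?_⟩
    obtain ⟨v, rfl⟩ := h w
    rw [hp, hn]
    simp
  · rintro ⟨n, hn⟩
    refine ⟨n + 1, LinearMap.ext fun v => ?_⟩
    have := hp n v
    rw [hn] at this
    have h2 := hk _ this.symm
    rw [pow_succ', Module.End.mul_apply, LinearMap.sub_apply, h2]
    simp

theorem exists_fix {s : V →ₗ[F] V} (hs : Un s) {v : V} (hv : v ≠ 0) : ∃ x, x ≠ 0 ∧ s x = x := by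
  obtain ⟨n, hn⟩ := hs
  by_contra hc
  push Not at hc
  have : ∀ k : ℕ, (((s : Module.End F V) - 1) ^ k) v ≠ 0 := by
    intro k
    induction k with
    | zero => exact hv
    | succ k ih =>
      rw [pow_succ', Module.End.mul_apply, LinearMap.sub_apply, sub_ne_zero]
      exact hc _ ih
  exact this n (by rw [hn]; rfl)

theorem un_of_subsingleton [Subsingleton V] (s : V →ₗ[F] V) : Un s :=
  ⟨0, LinearMap.ext fun _ => Subsingleton.elim _ _⟩

theorem card_lt [Finite V] {π : V →ₗ[F] W} (h : Function.Surjective π) {x : V} (hx : x ≠ 0)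
    (h0 : π x = 0) : Nat.card W < Nat.card V := by
  have := Finite.of_surjective π h
  have := Fintype.ofFinite V
  have := Fintype.ofFinite W
  rw [Nat.card_eq_fintype_card, Nat.card_eq_fintype_card]
  exact Fintype.card_lt_of_surjective_not_injective π h fun hi => hx (hi (by rw [h0, map_zero]))

end Pool.Agent.H815Z.Kaw
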