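import Pool.Agent.H815Z.Kaw1

/-! The core counting lemma behind the Kawanaka identity. -/

set_option autoImplicit false

namespace Pool.Agent.H815Z.Kaw

open scoped Classical

variable {F : Type} [Field F]

section
variable {A C V A' C' V' : Type} [AddCommGroup A] [Module F A] [AddCommGroup C] [Module F C]
  [AddCommGroup V] [Module F V] [AddCommGroup A'] [Module F A'] [AddCommGroup C'] [Module F C']
  [AddCommGroup V'] [Module F V']

/-- the data of the lemma -/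
structure Dat (i i' : A →ₗ[F] V) (p p' : V →ₗ[F] C) : Prop where
  ii : ∀ a, i a = 0 → a = 0
  ps : Function.Surjective p
  k1 : ∀ a, p (i a) = 0
  k2 : ∀ v, p v = 0 → ∃ a, i a = v
  z : ∀ a, p' (i' a) = 0

/-- left hand side solutions -/
def LS (i i' : A →ₗ[F] V) (p p' : V →ₗ[F] C) (s : V →ₗ[F] V) : Prop :=
  (∀ a, s (i a) = i' a) ∧ (∀ v, p' (s v) = p v) ∧ Un s

/-- right hand side solutions -/
def RS (i i' : A →ₗ[F] V) (p p' : V →ₗ[F] C) (j : C →ₗ[F] V) : Prop :=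
  (∀ c, p (j c) = c) ∧ (∃ a : A →ₗ[F] A, Un a ∧ ∀ x, i (a x) = i' x - j (p (i' x))) ∧
    Un (p' ∘ₗ j)

variable {i i' : A →ₗ[F] V} {p p' : V →ₗ[F] C}

/-- a quotient by a subspace meeting the image of `i` trivially -/
structure Q2 (i : A →ₗ[F] V) (p p' : V →ₗ[F] C) (π : V →ₗ[F] V') (τ : C →ₗ[F] C')
    (q q' : V' →ₗ[F] C') : Prop where
  πs : Function.Surjective π
  τs : Function.Surjective τ
  e : ∀ v, q (π v) = τ (p v)
  e' : ∀ v, q' (π v) = τ (p' v)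
  kτ : ∀ c, τ c = 0 → ∃ x, π x = 0 ∧ p x = c
  g1 : ∀ a, π (i a) = 0 → a = 0
  g2 : ∀ x, π x = 0 → p' x = p x

variable {π : V →ₗ[F] V'} {τ : C →ₗ[F] C'} {q q' : V' →ₗ[F] C'}

theorem Q2.inj (D : Dat i i' p p') (Q : Q2 i p p' π τ q q') (x : V) (h : π x = 0) (h' : p x = 0) :
    x = 0 := by
  obtain ⟨a, rfl⟩ := D.k2 x h'
  rw [Q.g1 a h, map_zero]

theorem Q2.inj' (D : Dat i i' p p') (Q : Q2 i p p' π τ q q') (x : V) (h : π x = 0)
    (h' : p' x = 0) : x = 0 := Q.inj D x h (by rw [← Q.g2 x h, h'])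

theorem Q2.ext (D : Dat i i' p p') (Q : Q2 i p p' π τ q q') {x y : V} (h : π x = π y)
    (h' : p x = p y) : x = y :=
  sub_eq_zero.1 (Q.inj D _ (by rw [map_sub, h, sub_self]) (by rw [map_sub, h', sub_self]))

theorem Q2.ext' (D : Dat i i' p p') (Q : Q2 i p p' π τ q q') {x y : V} (h : π x = π y)
    (h' : p' x = p' y) : x = y :=
  sub_eq_zero.1 (Q.inj' D _ (by rw [map_sub, h, sub_self]) (by rw [map_sub, h', sub_self]))

theorem Q2.dat (D : Dat i i' p p') (Q : Q2 i p p' π τ q q') : Dat (π ∘ₗ i) (π ∘ₗ i') q q' := by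
  refine ⟨Q.g1, fun c => ?_, fun a => ?_, fun v hv => ?_, fun a => ?_⟩
  · obtain ⟨c, rfl⟩ := Q.τs c
    obtain ⟨v, rfl⟩ := D.ps c
    exact ⟨π v, Q.e v⟩
  · rw [LinearMap.comp_apply, Q.e, D.k1, map_zero]
  · obtain ⟨v, rfl⟩ := Q.πs v
    rw [Q.e] at hv
    obtain ⟨x, h1, h2⟩ := Q.kτ _ hv
    obtain ⟨a, ha⟩ := D.k2 (v - x) (by rw [map_sub, h2, sub_self])
    exact ⟨a, by rw [LinearMap.comp_apply, ha, map_sub, h1, sub_zero]⟩
  · rw [LinearMap.comp_apply, Q.e', D.z, map_zero]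

theorem Q2.left (D : Dat i i' p p') (Q : Q2 i p p' π τ q q') :
    cnt (fun s => LS i i' p p' s ∧ ∀ x, π x = 0 → s x = x) =
      cnt (LS (π ∘ₗ i) (π ∘ₗ i') q q') := by
  refine cnt_rel (fun s s' => ∀ v, s' (π v) = π (s v)) ?_ ?_ ?_ ?_
  · rintro s ⟨⟨h1, h2, h3⟩, h4⟩
    obtain ⟨s', hs⟩ := exists_desc π Q.πs (π ∘ₗ s) (fun v hv => by
      rw [LinearMap.comp_apply, h4 v hv, hv])
    refine ⟨s', ⟨fun a => ?_, fun v => ?_, (un_desc Q.πs hs h4).1 h3⟩, hs⟩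
    · rw [LinearMap.comp_apply, hs, LinearMap.comp_apply, h1, LinearMap.comp_apply]
    · obtain ⟨v, rfl⟩ := Q.πs v
      rw [hs, LinearMap.comp_apply, Q.e', h2, Q.e]
  · rintro s' ⟨h1, h2, h3⟩
    obtain ⟨s, hs⟩ := exists_lift2 π p' (Q.inj' D) (s' ∘ₗ π) p (fun v => by
      obtain ⟨w, hw⟩ := Q.πs (s' (π v))
      obtain ⟨x, x1, x2⟩ := Q.kτ (p' w - p v) (by
        rw [map_sub, ← Q.e', hw, h2, Q.e, sub_self])
      refine ⟨w - x, by rw [map_sub, x1, sub_zero, hw]; rfl, ?_⟩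
      rw [map_sub, Q.g2 x x1, x2, sub_sub_cancel])
    have h4 : ∀ x, π x = 0 → s x = x := fun x hx =>
      Q.ext' D (by rw [(hs x).1, LinearMap.comp_apply, hx, map_zero])
        (by rw [(hs x).2, Q.g2 x hx])
    have h5 : ∀ v, s' (π v) = π (s v) := fun v => (hs v).1.symm
    refine ⟨s, ⟨⟨fun a => Q.ext' D ?_ ?_, fun v => (hs v).2, (un_desc Q.πs h5 h4).2 h3⟩, h4⟩, h5⟩
    · rw [← h5]
      exact h1 a
    · rw [(hs _).2, D.k1, D.z]
  · intro s a b _ _ _ h1 h2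
    ext v
    obtain ⟨v, rfl⟩ := Q.πs v
    rw [h1, h2]
  · rintro s t s' ⟨⟨-, h1, -⟩, -⟩ ⟨⟨-, h2, -⟩, -⟩ _ h3 h4
    ext v
    exact Q.ext' D (by rw [← h3, ← h4]) (by rw [h1, h2])

theorem Q2.right (D : Dat i i' p p') (Q : Q2 i p p' π τ q q') :
    cnt (fun j => RS i i' p p' j ∧ ∀ x, π x = 0 → j (p x) = x) =
      cnt (RS (π ∘ₗ i) (π ∘ₗ i') q q') := by
  have key : ∀ (j : C →ₗ[F] V) (j' : C' →ₗ[F] V'), (∀ c, p (j c) = c) →
      (∀ x, π x = 0 → j (p x) = x) → (∀ c, j' (τ c) = π (j c)) →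
      (RS i i' p p' j ↔ RS (π ∘ₗ i) (π ∘ₗ i') q q' j') := by
    intro j j' h1 h4 hj
    have e1 : ∀ c, q (j' c) = c := fun c => by
      obtain ⟨c, rfl⟩ := Q.τs c
      rw [hj, Q.e, h1]
    have e3 : Un (p' ∘ₗ j) ↔ Un (q' ∘ₗ j') := un_desc Q.τs (fun c => by
      rw [LinearMap.comp_apply, hj, Q.e']; rfl) (fun c hc => by
      obtain ⟨x, x1, rfl⟩ := Q.kτ c hc
      rw [LinearMap.comp_apply, h4 x x1, Q.g2 x x1])
    refine and_congr ⟨fun _ => e1, fun _ => h1⟩ (and_congr ?_ e3)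
    refine exists_congr fun a => and_congr Iff.rfl (forall_congr' fun x => ?_)
    simp only [LinearMap.comp_apply]
    rw [Q.e, hj, ← map_sub]
    exact ⟨congrArg π, fun h => Q.ext D h (by rw [D.k1, map_sub, h1, sub_self])⟩
  refine cnt_rel (fun j j' => ∀ c, j' (τ c) = π (j c)) ?_ ?_ ?_ ?_
  · rintro j ⟨h, h4⟩
    obtain ⟨j', hj⟩ := exists_desc τ Q.τs (π ∘ₗ j) (fun c hc => by
      obtain ⟨x, x1, rfl⟩ := Q.kτ c hc
      rw [LinearMap.comp_apply, h4 x x1, x1])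
    exact ⟨j', (key j j' h.1 h4 hj).1 h, hj⟩
  · intro j' h
    obtain ⟨j, hj⟩ := exists_lift2 π p (Q.inj D) (j' ∘ₗ τ) LinearMap.id (fun c => by
      obtain ⟨w, hw⟩ := Q.πs (j' (τ c))
      obtain ⟨x, x1, x2⟩ := Q.kτ (p w - c) (by rw [map_sub, ← Q.e, hw, h.1, sub_self])
      refine ⟨w - x, by rw [map_sub, x1, sub_zero, hw]; rfl, ?_⟩
      rw [map_sub, x2, sub_sub_cancel]; rfl)
    have h1 : ∀ c, p (j c) = c := fun c => (hj c).2
    have h5 : ∀ c, j' (τ c) = π (j c) := fun c => (hj c).1.symm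
    have h4 : ∀ x, π x = 0 → j (p x) = x := fun x hx =>
      Q.ext D (by rw [← h5, ← Q.e, hx, map_zero, map_zero]) (h1 _)
    exact ⟨j, ⟨(key j j' h1 h4 h5).2 h, h4⟩, h5⟩
  · intro s a b _ _ _ h1 h2
    ext v
    obtain ⟨v, rfl⟩ := Q.τs v
    rw [h1, h2]
  · rintro s t s' ⟨⟨h1, -⟩, -⟩ ⟨⟨h2, -⟩, -⟩ _ h3 h4
    ext v
    exact Q.ext D (by rw [← h3, ← h4]) (by rw [h1, h2])

/-- a quotient by the common part of `i` and `i'` -/
structure Q1 (i i' : A →ₗ[F] V) (p p' : V →ₗ[F] C) (σ : A →ₗ[F] A') (π : V →ₗ[F] V')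
    (m : C' →ₗ[F] A) (k k' : A' →ₗ[F] V') (q q' : V' →ₗ[F] C) : Prop where
  σs : Function.Surjective σ
  πs : Function.Surjective π
  mi : ∀ x, m x = 0 → x = 0
  e : ∀ a, k (σ a) = π (i a)
  e' : ∀ a, k' (σ a) = π (i' a)
  f : ∀ v, q (π v) = p v
  f' : ∀ v, q' (π v) = p' v
  kσ : ∀ a, σ a = 0 ↔ ∃ x, m x = a
  kπ : ∀ v, π v = 0 ↔ ∃ x, i (m x) = v
  g : ∀ x, i' (m x) = i (m x)

variable {σ : A →ₗ[F] A'} {m : C' →ₗ[F] A} {k k' : A' →ₗ[F] V'} {r r' : V' →ₗ[F] C}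

theorem Q1.dat (D : Dat i i' p p') (Q : Q1 i i' p p' σ π m k k' r r') : Dat k k' r r' := by
  refine ⟨fun a ha => ?_, fun c => ?_, fun a => ?_, fun v hv => ?_, fun a => ?_⟩
  · obtain ⟨a, rfl⟩ := Q.σs a
    rw [Q.e] at ha
    obtain ⟨x, hx⟩ := (Q.kπ _).1 ha
    exact (Q.kσ a).2 ⟨x, sub_eq_zero.1 (D.ii _ (by rw [map_sub, hx, sub_self]))⟩
  · obtain ⟨v, rfl⟩ := D.ps c
    exact ⟨π v, Q.f v⟩
  · obtain ⟨a, rfl⟩ := Q.σs a
    rw [Q.e, Q.f, D.k1]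
  · obtain ⟨v, rfl⟩ := Q.πs v
    rw [Q.f] at hv
    obtain ⟨a, rfl⟩ := D.k2 v hv
    exact ⟨σ a, Q.e a⟩
  · obtain ⟨a, rfl⟩ := Q.σs a
    rw [Q.e', Q.f', D.z]

theorem Q1.split (D : Dat i i' p p') (Q : Q1 i i' p p' σ π m k k' r r') :
    ∃ (t : V' →ₗ[F] V) (κ : V →ₗ[F] C'), (∀ w, π (t w) = w) ∧ (∀ v, t (π v) + i (m (κ v)) = v) ∧
      (∀ w, κ (t w) = 0) ∧ ∀ x, κ (i (m x)) = x := by
  obtain ⟨t, ht⟩ := exists_sec π Q.πs
  have hi : ∀ x, (i ∘ₗ m) x = 0 → x = 0 := fun x hx => Q.mi x (D.ii _ hx)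
  obtain ⟨κ, hκ⟩ := exists_lift (i ∘ₗ m) hi (LinearMap.id - t ∘ₗ π) (fun v =>
    (Q.kπ _).1 (by simp [ht]))
  simp only [LinearMap.comp_apply, LinearMap.sub_apply, LinearMap.id_apply] at hκ hi
  refine ⟨t, κ, ht, fun v => by rw [hκ, add_sub_cancel], fun w => hi _ ?_, fun x => ?_⟩
  · rw [hκ, ht, sub_self]
  · refine sub_eq_zero.1 (hi _ ?_)
    rw [map_sub, map_sub, hκ, (Q.kπ _).2 ⟨x, rfl⟩, map_zero, sub_zero, sub_self]

theorem Q1.left (D : Dat i i' p p') (Q : Q1 i i' p p' σ π m k k' r r') :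
    cnt (LS i i' p p') = cnt (LS k k' r r') * Nat.card (C →ₗ[F] C') := by
  obtain ⟨t, κ, h1, h2, h3, h4⟩ := Q.split D
  obtain ⟨j, hj⟩ := exists_sec p D.ps
  obtain ⟨ρ, hρ⟩ := exists_lift i D.ii (LinearMap.id - j ∘ₗ p) (fun v => D.k2 _ (by simp [hj]))
  simp only [LinearMap.comp_apply, LinearMap.sub_apply, LinearMap.id_apply] at hρ
  have hρi : ∀ a, ρ (i a) = a := fun a => sub_eq_zero.1 (D.ii _ (by
    rw [map_sub, hρ, D.k1, map_zero, sub_zero, sub_self]))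
  have hρj : ∀ c, ρ (j c) = 0 := fun c => D.ii _ (by rw [hρ, hj, sub_self])
  have hπ : ∀ x, π (i (m x)) = 0 := fun x => (Q.kπ _).2 ⟨x, rfl⟩
  have hfix : ∀ s : V →ₗ[F] V, (∀ a, s (i a) = i' a) → ∀ x, π x = 0 → s x = x := by
    intro s hs x hx
    obtain ⟨y, rfl⟩ := (Q.kπ x).1 hx
    rw [hs, Q.g]
  rw [← cnt_prod]
  refine cnt_rel (fun s x => (∀ v, x.1 (π v) = π (s v)) ∧ ∀ c, x.2 c = κ (s (j c))) ?_ ?_ ?_ ?_
  · rintro s ⟨s1, s2, s3⟩
    obtain ⟨s', hs⟩ := exists_desc π Q.πs (π ∘ₗ s) (fun v hv => by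
      rw [LinearMap.comp_apply, hfix s s1 v hv, hv])
    refine ⟨(s', κ ∘ₗ s ∘ₗ j), ⟨fun a => ?_, fun v => ?_,
      (un_desc Q.πs hs (hfix s s1)).1 s3⟩, hs, fun _ => rfl⟩
    · obtain ⟨a, rfl⟩ := Q.σs a
      rw [Q.e, hs, LinearMap.comp_apply, s1, Q.e']
    · obtain ⟨v, rfl⟩ := Q.πs v
      rw [hs, LinearMap.comp_apply, Q.f', s2, Q.f]
  · rintro ⟨s', h⟩ ⟨s1, s2, s3⟩
    let s : V →ₗ[F] V := t ∘ₗ s' ∘ₗ π + i ∘ₗ m ∘ₗ (κ ∘ₗ i' ∘ₗ ρ + h ∘ₗ p)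
    have hs : ∀ v, s v = t (s' (π v)) + i (m (κ (i' (ρ v)) + h (p v))) := fun _ => rfl
    have a1 : ∀ a, s (i a) = i' a := fun a => by
      rw [hs, ← Q.e, s1, Q.e', hρi, D.k1, map_zero, add_zero, h2]
    have a2 : ∀ v, s' (π v) = π (s v) := fun v => by rw [hs, map_add, h1, hπ, add_zero]
    refine ⟨s, ⟨a1, fun v => ?_, (un_desc Q.πs a2 (hfix s a1)).2 s3⟩, a2, fun c => ?_⟩
    · rw [← Q.f', ← a2, s2, Q.f]
    · rw [hs, map_add, h3, h4, hρj, hj]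
      simp
  · rintro s ⟨a, b⟩ ⟨a', b'⟩ _ _ _ ⟨x1, x2⟩ ⟨y1, y2⟩
    refine Prod.ext (LinearMap.ext fun v => ?_) (LinearMap.ext fun c => (x2 c).trans (y2 c).symm)
    obtain ⟨v, rfl⟩ := Q.πs v
    exact (x1 v).trans (y1 v).symm
  · rintro s s₂ ⟨a, b⟩ ⟨s1, -⟩ ⟨s2, -⟩ _ ⟨x1, x2⟩ ⟨y1, y2⟩
    ext v
    have e : v = i (ρ v) + j (p v) := by rw [hρ, sub_add_cancel]
    rw [e, map_add, map_add, s1, s2, ← h2 (s (j (p v))), ← h2 (s₂ (j (p v))), ← x1, ← y1, ← x2,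
      ← y2]

theorem Q1.right (D : Dat i i' p p') (Q : Q1 i i' p p' σ π m k k' r r') :
    cnt (RS i i' p p') = cnt (RS k k' r r') * Nat.card (C →ₗ[F] C') := by
  obtain ⟨t, κ, h1, h2, h3, h4⟩ := Q.split D
  have D' := Q.dat D
  have hπ : ∀ x, π (i (m x)) = 0 := fun x => (Q.kπ _).2 ⟨x, rfl⟩
  have key : ∀ (j : C →ₗ[F] V), (RS i i' p p' j ↔ RS k k' r r' (π ∘ₗ j)) := by
    intro j
    have e3 : r' ∘ₗ π ∘ₗ j = p' ∘ₗ j := LinearMap.ext fun c => Q.f' _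
    unfold RS
    rw [e3]
    simp only [LinearMap.comp_apply, Q.f]
    refine and_congr_right fun hj => and_congr ?_ Iff.rfl
    have fix : ∀ a : A →ₗ[F] A, (∀ x, i (a x) = i' x - j (p (i' x))) → ∀ x, σ x = 0 → a x = x := by
      intro a ha x hx
      obtain ⟨y, rfl⟩ := (Q.kσ x).1 hx
      refine sub_eq_zero.1 (D.ii _ ?_)
      rw [map_sub, ha, Q.g, D.k1, map_zero, sub_zero, sub_self]
    constructor
    · rintro ⟨a, a1, a2⟩
      obtain ⟨a', ha⟩ := exists_desc σ Q.σs (σ ∘ₗ a) (fun v hv => by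
        rw [LinearMap.comp_apply, fix a a2 v hv, hv])
      refine ⟨a', (un_desc Q.σs ha (fix a a2)).1 a1, fun x => ?_⟩
      obtain ⟨x, rfl⟩ := Q.σs x
      rw [ha, LinearMap.comp_apply, Q.e, a2, Q.e', Q.f, map_sub]
    · rintro ⟨a', a1, a2⟩
      obtain ⟨a, ha⟩ := exists_lift i D.ii (i' - j ∘ₗ p ∘ₗ i') (fun v => D.k2 _ (by simp [hj]))
      simp only [LinearMap.comp_apply, LinearMap.sub_apply] at ha
      refine ⟨a, (un_desc Q.σs (fun x => ?_) (fix a ha)).2 a1, ha⟩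
      refine sub_eq_zero.1 (D'.ii _ ?_)
      rw [map_sub, a2, Q.e, ha, Q.e', Q.f, map_sub, sub_self]
  rw [← cnt_prod]
  refine cnt_rel (fun j x => x.1 = π ∘ₗ j ∧ x.2 = κ ∘ₗ j) ?_ ?_ ?_ ?_
  · intro j h
    exact ⟨(π ∘ₗ j, κ ∘ₗ j), (key j).1 h, rfl, rfl⟩
  · rintro ⟨j', h⟩ hj
    have e : j' = π ∘ₗ (t ∘ₗ j' + i ∘ₗ m ∘ₗ h) := LinearMap.ext fun c => by simp [h1, hπ]
    refine ⟨t ∘ₗ j' + i ∘ₗ m ∘ₗ h, (key _).2 (e ▸ hj), e, LinearMap.ext fun c => ?_⟩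
    simp [h3, h4]
  · rintro s ⟨a, b⟩ ⟨a', b'⟩ _ _ _ ⟨x1, x2⟩ ⟨y1, y2⟩
    exact Prod.ext (x1.trans y1.symm) (x2.trans y2.symm)
  · rintro s s₂ ⟨a, b⟩ _ _ _ ⟨x1, x2⟩ ⟨y1, y2⟩
    ext v
    have e1 : π (s v) = π (s₂ v) := LinearMap.congr_fun (x1.symm.trans y1) v
    have e2 : κ (s v) = κ (s₂ v) := LinearMap.congr_fun (x2.symm.trans y2) v
    rw [← h2 (s v), e1, e2, h2]

end

theorem core (n : ℕ) : ∀ (A C V : Type) [AddCommGroup A] [Module F A] [AddCommGroup C]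
    [Module F C] [AddCommGroup V] [Module F V] [Finite C] [Finite V]
    (i i' : A →ₗ[F] V) (p p' : V →ₗ[F] C), Nat.card V = n → Dat i i' p p' →
    cnt (LS i i' p p') = cnt (RS i i' p p') := by
  induction n using Nat.strong_induction_on with
  | _ n ih =>
  intro A C V _ _ _ _ _ _ _ _ i i' p p' hn D
  rcases subsingleton_or_nontrivial V with hV | hV
  · have hC : Subsingleton C := D.ps.subsingleton
    have hA : Subsingleton A := ⟨fun a b => sub_eq_zero.1 (D.ii _ (Subsingleton.elim _ _))⟩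
    refine cnt_rel (fun _ _ => True) (fun _ _ => ⟨0, ⟨fun _ => Subsingleton.elim _ _,
      ⟨0, un_of_subsingleton _, fun _ => Subsingleton.elim _ _⟩, un_of_subsingleton _⟩, trivial⟩)
      (fun _ _ => ⟨0, ⟨fun _ => Subsingleton.elim _ _, fun _ => Subsingleton.elim _ _,
        un_of_subsingleton _⟩, trivial⟩) ?_ ?_
    · intro _ _ _ _ _ _ _ _
      exact LinearMap.ext fun _ => Subsingleton.elim _ _
    · intro _ _ _ _ _ _ _ _
      exact LinearMap.ext fun _ => Subsingleton.elim _ _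
  by_cases hK : ∃ a, a ≠ 0 ∧ i' a = i a
  · obtain ⟨a₀, h0, ha₀⟩ := hK
    let K : Submodule F A := LinearMap.ker (i' - i)
    have mK : ∀ a, a ∈ K ↔ i' a = i a := fun a => by simp [K, sub_eq_zero]
    let X : Submodule F V := K.map i
    have hX : ∀ v, X.mkQ v = 0 ↔ ∃ x : K, i x = v := fun v => by
      rw [Submodule.mkQ_apply, Submodule.Quotient.mk_eq_zero]
      exact ⟨fun ⟨a, h1, h2⟩ => ⟨⟨a, h1⟩, h2⟩, fun ⟨a, h⟩ => ⟨a, a.2, h⟩⟩
    have hKq : ∀ a, K.mkQ a = 0 ↔ ∃ x : K, K.subtype x = a := fun a => by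
      rw [Submodule.mkQ_apply, Submodule.Quotient.mk_eq_zero]
      exact ⟨fun h => ⟨⟨a, h⟩, rfl⟩, fun ⟨x, h⟩ => h ▸ x.2⟩
    obtain ⟨k, hk⟩ := exists_desc K.mkQ K.mkQ_surjective (X.mkQ ∘ₗ i) (fun a ha => by
      obtain ⟨x, rfl⟩ := (hKq a).1 ha
      exact (hX _).2 ⟨x, rfl⟩)
    obtain ⟨k', hk'⟩ := exists_desc K.mkQ K.mkQ_surjective (X.mkQ ∘ₗ i') (fun a ha => by
      obtain ⟨x, rfl⟩ := (hKq a).1 ha
      exact (hX _).2 ⟨x, ((mK _).1 x.2).symm⟩)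
    obtain ⟨r, hr⟩ := exists_desc X.mkQ X.mkQ_surjective p (fun v hv => by
      obtain ⟨x, rfl⟩ := (hX v).1 hv
      exact D.k1 _)
    obtain ⟨r', hr'⟩ := exists_desc X.mkQ X.mkQ_surjective p' (fun v hv => by
      obtain ⟨x, rfl⟩ := (hX v).1 hv
      rw [← (mK _).1 x.2]
      exact D.z _)
    have Q : Q1 i i' p p' K.mkQ X.mkQ K.subtype k k' r r' :=
      ⟨K.mkQ_surjective, X.mkQ_surjective, fun x hx => Subtype.ext hx, hk, hk', hr, hr', hKq, hX,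
        fun x => (mK _).1 x.2⟩
    rw [Q.left D, Q.right D, ih _ (hn ▸ card_lt X.mkQ_surjective (fun h => h0 (D.ii _ h))
      ((hX _).2 ⟨⟨a₀, (mK _).2 ha₀⟩, rfl⟩)) _ _ _ k k' r r' rfl (Q.dat D)]
  · push Not at hK
    obtain ⟨μ, μ1, μ0⟩ := exists_mu (Submodule F V)
    obtain ⟨v₀, hv₀⟩ := exists_ne (0 : V)
    let WL : (V →ₗ[F] V) → Submodule F V := fun s => LinearMap.ker (s - LinearMap.id)
    let WR : (C →ₗ[F] V) → Submodule F V := fun j =>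
      LinearMap.ker (j ∘ₗ p - LinearMap.id) ⊓ LinearMap.ker (p' - p)
    have mL : ∀ s x, x ∈ WL s ↔ s x = x := fun s x => by simp [WL, sub_eq_zero]
    have mR : ∀ j x, x ∈ WR j ↔ j (p x) = x ∧ p' x = p x := fun j x => by simp [WR, sub_eq_zero]
    have sL := mu_sum μ0 (LS i i' p p') WL (fun s hs => by
      obtain ⟨x, x0, hx⟩ := exists_fix hs.2.2 hv₀
      exact (Submodule.ne_bot_iff _).2 ⟨x, (mL s x).2 hx, x0⟩)
    have sR := mu_sum μ0 (RS i i' p p') WR (fun j hj => by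
      obtain ⟨h1, ⟨a, a1, a2⟩, h3⟩ := hj
      by_cases hc : p v₀ = 0
      · rcases subsingleton_or_nontrivial C with hC | hC
        · obtain ⟨b, rfl⟩ := D.k2 v₀ hc
          obtain ⟨x, x0, hx⟩ := exists_fix a1 (v := b) (fun h => hv₀ (by rw [h, map_zero]))
          have := a2 x
          rw [hx, Subsingleton.elim (p (i' x)) 0, map_zero, sub_zero] at this
          exact absurd this.symm (hK x x0)
        · obtain ⟨c₀, hc₀⟩ := exists_ne (0 : C)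
          obtain ⟨c, c0, hc⟩ := exists_fix h3 hc₀
          exact (Submodule.ne_bot_iff _).2 ⟨j c, (mR j _).2 ⟨by rw [h1], by rw [h1]; exact hc⟩,
            fun h => c0 (by rw [← h1 c, h, map_zero])⟩
      · obtain ⟨c, c0, hc⟩ := exists_fix h3 hc
        exact (Submodule.ne_bot_iff _).2 ⟨j c, (mR j _).2 ⟨by rw [h1], by rw [h1]; exact hc⟩,
          fun h => c0 (by rw [← h1 c, h, map_zero])⟩)
    have step : ∀ X : Submodule F V, X ≠ ⊥ → cnt (fun s => LS i i' p p' s ∧ X ≤ WL s) =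
        cnt (fun j => RS i i' p p' j ∧ X ≤ WR j) := by
      intro X hX
      have hq : ∀ x, X.mkQ x = 0 ↔ x ∈ X := fun x => by
        rw [Submodule.mkQ_apply, Submodule.Quotient.mk_eq_zero]
      by_cases good : (∀ a, i a ∈ X → a = 0) ∧ ∀ x ∈ X, p' x = p x
      · let Y : Submodule F C := X.map p
        have hY : ∀ c, Y.mkQ c = 0 ↔ ∃ x, X.mkQ x = 0 ∧ p x = c := fun c => by
          rw [Submodule.mkQ_apply, Submodule.Quotient.mk_eq_zero]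
          simp only [hq]
          rfl
        obtain ⟨q, hq1⟩ := exists_desc X.mkQ X.mkQ_surjective (Y.mkQ ∘ₗ p) (fun v hv =>
          (hY _).2 ⟨v, hv, rfl⟩)
        obtain ⟨q', hq2⟩ := exists_desc X.mkQ X.mkQ_surjective (Y.mkQ ∘ₗ p') (fun v hv =>
          (hY _).2 ⟨v, hv, (good.2 v ((hq v).1 hv)).symm⟩)
        have Q : Q2 i p p' X.mkQ Y.mkQ q q' := ⟨X.mkQ_surjective, Y.mkQ_surjective, hq1, hq2,
          fun c => (hY c).1, fun a ha => good.1 a ((hq _).1 ha),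
          fun x hx => good.2 x ((hq x).1 hx)⟩
        obtain ⟨x₀, x1, x0⟩ := (Submodule.ne_bot_iff _).1 hX
        have := ih _ (hn ▸ card_lt X.mkQ_surjective x0 ((hq _).2 x1)) _ _ _ _ _ q q' rfl
          (Q.dat D)
        rw [← Q.left D, ← Q.right D] at this
        refine (cnt_congr fun s => and_congr Iff.rfl ?_).trans
          (this.trans (cnt_congr fun j => and_congr Iff.rfl ?_))
        · exact ⟨fun h x hx => (mL s x).1 (h ((hq x).1 hx)),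
            fun h x hx => (mL s x).2 (h x ((hq x).2 hx))⟩
        · exact ⟨fun h x hx => (mR j x).2 ⟨h x ((hq x).2 hx), good.2 x hx⟩,
            fun h x hx => ((mR j x).1 (h ((hq x).1 hx))).1⟩
      · rw [cnt_zero, cnt_zero]
        · rintro j ⟨-, h⟩
          refine good ⟨fun a ha => D.ii a ?_, fun x hx => ((mR j x).1 (h hx)).2⟩
          rw [← ((mR j _).1 (h ha)).1, D.k1, map_zero]
        · rintro s ⟨⟨s1, s2, -⟩, h⟩
          refine good ⟨fun a ha => ?_, fun x hx => by rw [← s2 x, (mL s x).1 (h hx)]⟩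
          by_contra a0
          exact hK a a0 (by rw [← s1, (mL s _).1 (h ha)])
    have := sL.trans sR.symm
    rw [← Finset.add_sum_erase _ _ (Finset.mem_univ ⊥), ← Finset.add_sum_erase _ _
      (Finset.mem_univ ⊥), Finset.sum_congr rfl (fun X hX => by
        rw [step X (Finset.ne_of_mem_erase hX)]), add_left_inj, μ1, one_mul, one_mul] at this
    exact (cnt_congr fun s => by simp).trans (this.trans (cnt_congr fun j => by simp))

end Pool.Agent.H815Z.Kaw
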