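import Mathlib

/-! Virtual characters of a group: the additive span of characters of complex representations. -/

namespace Pool.Agent.H815Z

/-- Virtual characters of `G`. -/
def VC (G : Type) [Group G] : AddSubgroup (G → ℂ) :=
  AddSubgroup.closure {χ | ∃ (n : ℕ) (ρ : Representation ℂ G (Fin n → ℂ)), χ = ρ.character}

/-- `hP a s` is the complete homogeneous symmetric function of degree `s` written in the power
sums `a 1, a 2, ...`: the coefficient of `z ^ s` in `exp (∑ a k z ^ k / k)`. -/
noncomputable def hP {K : Type*} [CommRing K] [Algebra ℂ K] (a : ℕ → K) : ℕ → K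
  | 0 => 1
  | s + 1 => ((s + 1 : ℂ)⁻¹) • ∑ i : Fin (s + 1), a (s + 1 - i) * hP a i
decreasing_by exact i.2

end Pool.Agent.H815Z
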