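import Pool.Agent.H815Z.VCDefs

/-! Basic toolkit for virtual characters of finite groups. -/

set_option autoImplicit false

namespace Pool.Agent.H815Z
open scoped Classical
open Module

theorem VC.char_mem {G V : Type} [Group G] [AddCommGroup V] [Module ℂ V] [FiniteDimensional ℂ V]
    (ρ : Representation ℂ G V) : ρ.character ∈ VC G := by
  let e : V ≃ₗ[ℂ] (Fin (finrank ℂ V) → ℂ) := (Module.finBasis ℂ V).equivFun
  let σ : Representation ℂ G (Fin (finrank ℂ V) → ℂ) :=
    { toFun := fun g => e.conj (ρ g)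
      map_one' := by rw [map_one]; exact e.conj_id
      map_mul' := fun g h => by rw [map_mul]; exact e.conj_comp _ _ }
  refine AddSubgroup.subset_closure ⟨_, σ, ?_⟩
  funext g
  exact (LinearMap.trace_conj' (ρ g) e).symm

theorem VC.comap {G H : Type} [Group G] [Group H] (f : H →* G) {φ : G → ℂ} (h : φ ∈ VC G) :
    (fun x => φ (f x)) ∈ VC H := by
  induction h using AddSubgroup.closure_induction with
  | mem χ hχ =>
    obtain ⟨n, ρ, rfl⟩ := hχ
    exact AddSubgroup.subset_closure ⟨n, ρ.comp f, rfl⟩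
  | zero => exact (VC H).zero_mem
  | add a b _ _ ha hb => exact (VC H).add_mem ha hb
  | neg a _ ha => exact (VC H).neg_mem ha

theorem VC.one {G : Type} [Group G] : (fun _ => (1 : ℂ)) ∈ VC G := by
  have := VC.char_mem (Representation.trivial ℂ G ℂ)
  convert this using 1
  funext g
  simp [Representation.character, Representation.trivial]

theorem VC.mul {G : Type} [Group G] {φ ψ : G → ℂ} (h : φ ∈ VC G) (h' : ψ ∈ VC G) :
    (fun x => φ x * ψ x) ∈ VC G := by
  induction h using AddSubgroup.closure_induction with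
  | mem χ hχ =>
    obtain ⟨n, ρ, rfl⟩ := hχ
    induction h' using AddSubgroup.closure_induction with
    | mem χ' hχ' =>
      obtain ⟨m, σ, rfl⟩ := hχ'
      have := VC.char_mem (ρ.tprod σ)
      rw [Representation.char_tensor] at this
      exact this
    | zero =>
      convert (VC G).zero_mem using 1
      funext x
      simp
    | add a b _ _ ha hb =>
      convert (VC G).add_mem ha hb using 1
      funext x
      simp [mul_add]
    | neg a _ ha =>
      convert (VC G).neg_mem ha using 1
      funext x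
      simp
  | zero =>
    convert (VC G).zero_mem using 1
    funext x
    simp
  | add a b _ _ ha hb =>
    convert (VC G).add_mem ha hb using 1
    funext x
    simp [add_mul]
  | neg a _ ha =>
    convert (VC G).neg_mem ha using 1
    funext x
    simp

theorem VC.conj_inv {G : Type} [Group G] {φ : G → ℂ} (h : φ ∈ VC G) (a b : G) :
    φ (b * a * b⁻¹) = φ a := by
  induction h using AddSubgroup.closure_induction with
  | mem χ hχ =>
    obtain ⟨n, ρ, rfl⟩ := hχ
    exact ρ.char_conj a b
  | zero => rfl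
  | add a b _ _ ha hb => simp [ha, hb]
  | neg a _ ha => simp [ha]

namespace VCAux

lemma avg_mem {G H W : Type} [Group G] [Group H] [Fintype H] [AddCommGroup W] [Module ℂ W]
    [FiniteDimensional ℂ W] (τ : Representation ℂ (G × H) W) :
    (fun g => (Fintype.card H : ℂ)⁻¹ * ∑ y : H, τ.character (g, y)) ∈ VC G := by
  have hH : (Fintype.card H : ℂ) ≠ 0 := by exact_mod_cast Fintype.card_ne_zero
  let _ : Invertible (Fintype.card H : ℂ) := invertibleOfNonzero hH
  let α : Representation ℂ G W := τ.comp (MonoidHom.inl G H)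
  let β : Representation ℂ H W := τ.comp (MonoidHom.inr G H)
  let U : Subrepresentation α := ⟨β.invariants, by
    intro g v hv y
    have h1 : β y v = v := hv y
    change τ (1, y) (τ (g, 1) v) = τ (g, 1) v
    have h2 : τ (1, y) v = v := h1
    rw [← Module.End.mul_apply, ← map_mul]
    conv_rhs => rw [← h2, ← Module.End.mul_apply, ← map_mul]
    simp⟩
  have := VC.char_mem U.toRepresentation
  convert this using 1
  funext g
  have hf : ∀ x, (α g * β.averageMap) x ∈ U.toSubmodule := fun x =>
    U.apply_mem_toSubmodule g (β.averageMap_invariant x)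
  have e1 := LinearMap.trace_restrict_eq_of_forall_mem U.toSubmodule (α g * β.averageMap) hf
  have e2 : (α g * β.averageMap).restrict (fun x _ => hf x) = U.toRepresentation g := by
    ext v
    change α g (β.averageMap v) = α g v
    rw [β.averageMap_id v v.2]
  rw [e2] at e1
  change _ = LinearMap.trace ℂ _ (U.toRepresentation g)
  rw [e1]
  have e3 : β.averageMap = (Fintype.card H : ℂ)⁻¹ • ∑ y : H, β y := by
    simp [GroupAlgebra.average, _root_.map_sum]
  rw [e3, mul_smul_comm, map_smul, Finset.mul_sum _ _ (α g), map_sum, smul_eq_mul]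
  congr 1
  refine Finset.sum_congr rfl fun y _ => ?_
  change _ = LinearMap.trace ℂ _ (τ (g, 1) * τ (1, y))
  rw [← map_mul]
  simp [Representation.character]

/-- the two sided permutation representation -/
noncomputable def perm {G H : Type} [Group G] [Group H] (f : H →* G) :
    Representation ℂ (G × H) (G → ℂ) where
  toFun p := LinearMap.funLeft ℂ ℂ fun x => p.1⁻¹ * x * f p.2
  map_one' := by
    ext F x
    simp [LinearMap.funLeft]
  map_mul' p q := by
    ext F x
    simp [LinearMap.funLeft, mul_assoc]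

lemma perm_char {G H : Type} [Group G] [Fintype G] [Group H] (f : H →* G) (g : G) (y : H) :
    (perm f).character (g, y) = ∑ x : G, if x * f y * x⁻¹ = g then 1 else 0 := by
  rw [Representation.character, LinearMap.trace_eq_matrix_trace ℂ (Pi.basisFun ℂ G),
    Matrix.trace]
  refine Finset.sum_congr rfl fun x _ => ?_
  simp only [Matrix.diag, LinearMap.toMatrix_apply, perm, MonoidHom.coe_mk, OneHom.coe_mk,
    Pi.basisFun_apply, Pi.basisFun_repr, LinearMap.funLeft_apply, Pi.single_apply]
  refine if_congr ⟨fun h => ?_, fun h => ?_⟩ rfl rfl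
  · calc x * f y * x⁻¹ = g * (g⁻¹ * x * f y) * x⁻¹ := by group
      _ = g := by rw [h]; group
  · rw [← h]
    group

/-- irreducible characters -/
def Irr (G : Type) [Group G] : Set (G → ℂ) :=
  {χ | ∃ (V : Type) (_ : AddCommGroup V) (_ : Module ℂ V) (_ : FiniteDimensional ℂ V)
    (ρ : Representation ℂ G V), ρ.IsIrreducible ∧ χ = ρ.character}

lemma char_split {G V : Type} [Group G] [AddCommGroup V] [Module ℂ V] [FiniteDimensional ℂ V]
    {ρ : Representation ℂ G V} (p q : Subrepresentation ρ)
    (h : IsCompl p.toSubmodule q.toSubmodule) :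
    ρ.character = p.toRepresentation.character + q.toRepresentation.character := by
  funext g
  let e := Submodule.prodEquivOfIsCompl p.toSubmodule q.toSubmodule h
  have e1 : ρ g = e.conj ((p.toRepresentation g).prodMap (q.toRepresentation g)) := by
    apply LinearMap.ext
    intro v
    obtain ⟨⟨a, b⟩, rfl⟩ := e.surjective v
    rw [LinearEquiv.conj_apply_apply, LinearEquiv.symm_apply_apply]
    simp only [e, Submodule.coe_prodEquivOfIsCompl', LinearMap.prodMap_apply, map_add]
    rfl
  rw [Pi.add_apply, Representation.character, e1, LinearMap.trace_conj',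
    LinearMap.trace_prodMap']
  rfl

lemma char_mem_irr {G : Type} [Group G] [Finite G] (n : ℕ) :
    ∀ (V : Type) [AddCommGroup V] [Module ℂ V] [FiniteDimensional ℂ V]
      (ρ : Representation ℂ G V), finrank ℂ V ≤ n →
      ρ.character ∈ AddSubgroup.closure (Irr G) := by
  have : NeZero (Nat.card G : ℂ) := ⟨by exact_mod_cast (Nat.card_pos (α := G)).ne'⟩
  have hz : ∀ (V : Type) [AddCommGroup V] [Module ℂ V] [FiniteDimensional ℂ V]
      (ρ : Representation ℂ G V), finrank ℂ V = 0 →
      ρ.character ∈ AddSubgroup.closure (Irr G) := by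
    intro V _ _ _ ρ h
    have : Subsingleton V := finrank_zero_iff.mp h
    have e : ρ.character = 0 := by
      funext g
      rw [Representation.character, Subsingleton.elim (ρ g) 0, map_zero]
      rfl
    rw [e]
    exact zero_mem _
  induction n with
  | zero => exact fun V _ _ _ ρ h => hz V ρ (by omega)
  | succ n ih =>
    intro V _ _ _ ρ hV
    by_cases h0 : finrank ℂ V = 0
    · exact hz V ρ h0
    by_cases hi : ρ.IsIrreducible
    · exact AddSubgroup.subset_closure ⟨V, _, _, inferInstance, ρ, hi, rfl⟩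
    have hnt : Nontrivial V := finrank_pos_iff.1 (Nat.pos_of_ne_zero h0)
    have hp : ∃ p : Subrepresentation ρ, p ≠ ⊥ ∧ p ≠ ⊤ := by
      by_contra hc
      apply hi
      have : Nontrivial (Subrepresentation ρ) := ⟨⊥, ⊤, fun h =>
        bot_ne_top (α := Submodule ℂ V) (congrArg Subrepresentation.toSubmodule h)⟩
      refine ⟨fun p => ?_⟩
      by_contra hp
      exact hc ⟨p, fun h => hp (Or.inl h), fun h => hp (Or.inr h)⟩
    obtain ⟨p, hp0, hp1⟩ := hp
    obtain ⟨q, hpq⟩ := exists_isCompl p
    have hc : IsCompl p.toSubmodule q.toSubmodule := by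
      constructor
      · rw [disjoint_iff]
        exact congrArg Subrepresentation.toSubmodule hpq.inf_eq_bot
      · rw [codisjoint_iff]
        exact congrArg Subrepresentation.toSubmodule hpq.sup_eq_top
    have hsum := Submodule.finrank_add_eq_of_isCompl hc
    have h1 : finrank ℂ p.toSubmodule ≠ 0 := by
      intro h
      rw [Submodule.finrank_eq_zero] at h
      exact hp0 (Subrepresentation.toSubmodule_injective h)
    have h2 : finrank ℂ p.toSubmodule < finrank ℂ V :=
      Submodule.finrank_lt fun h => hp1 (Subrepresentation.toSubmodule_injective h)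
    rw [char_split p q hc]
    exact add_mem (ih _ _ (by omega)) (ih _ _ (by omega))

lemma vc_le {G : Type} [Group G] [Finite G] : VC G ≤ AddSubgroup.closure (Irr G) := by
  rw [VC, AddSubgroup.closure_le]
  rintro _ ⟨n, ρ, rfl⟩
  exact char_mem_irr _ _ ρ le_rfl

lemma scalar {G V : Type} [Group G] [AddCommGroup V] [Module ℂ V] [FiniteDimensional ℂ V]
    (ρ : Representation ℂ G V) [ρ.IsIrreducible] (A : V →ₗ[ℂ] V)
    (hA : ∀ g, A * ρ g = ρ g * A) : ∃ c : ℂ, A = c • (1 : V →ₗ[ℂ] V) := by
  let A' : Representation.IntertwiningMap ρ ρ := ⟨A, fun g => hA g⟩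
  obtain ⟨c, hc⟩ :=
    (Representation.IsIrreducible.algebraMap_intertwiningMap_bijective_of_isAlgClosed
      (ρ := ρ)).2 A'
  refine ⟨c, ?_⟩
  have := congrArg (fun f => f.toLinearMap) hc
  rw [Algebra.algebraMap_eq_smul_one] at this
  exact this.symm

lemma nontriv {G V : Type} [Group G] [AddCommGroup V] [Module ℂ V]
    (ρ : Representation ℂ G V) [h : ρ.IsIrreducible] : Nontrivial V := by
  by_contra hc
  have : Subsingleton V := not_nontrivial_iff_subsingleton.1 hc
  exact bot_ne_top (α := Subrepresentation ρ)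
    (Subrepresentation.toSubmodule_injective (Subsingleton.elim _ _))

lemma conj_comm {H : Type} [Group H] [Finite H] (hc : ∀ a b : H, a * b = b * a) {χ : H → ℂ}
    (h : χ ∈ AddSubgroup.closure (Irr H)) (g : H) : (starRingEnd ℂ) (χ g) = χ g⁻¹ := by
  induction h using AddSubgroup.closure_induction with
  | mem χ hχ =>
    obtain ⟨V, _, _, _, ρ, hi, rfl⟩ := hχ
    have := nontriv ρ
    obtain ⟨c, h1⟩ := scalar ρ (ρ g) fun x => by rw [← map_mul, ← map_mul, hc]
    obtain ⟨d, h2⟩ := scalar ρ (ρ g⁻¹) fun x => by rw [← map_mul, ← map_mul, hc]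
    have hinj : ∀ a : ℂ, a • (1 : V →ₗ[ℂ] V) = 1 → a = 1 := by
      intro a ha
      have : (a - 1) • (1 : V →ₗ[ℂ] V) = 0 := by rw [sub_smul, ha, one_smul, sub_self]
      rcases smul_eq_zero.1 this with h | h
      · exact sub_eq_zero.1 h
      · exact absurd h one_ne_zero
    have e1 : c * d = 1 := by
      apply hinj
      have : ρ g * ρ g⁻¹ = 1 := by rw [← map_mul, mul_inv_cancel, map_one]
      rw [h1, h2, smul_mul_smul_comm, mul_one] at this
      exact this
    have e2 : c ^ Nat.card H = 1 := by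
      apply hinj
      have : ρ g ^ Nat.card H = 1 := by rw [← map_pow, pow_card_eq_one', map_one]
      rw [h1, smul_pow, one_pow] at this
      exact this
    have e3 : ‖c‖ = 1 := Complex.norm_eq_one_of_pow_eq_one e2 (Nat.card_pos (α := H)).ne'
    have e4 : (starRingEnd ℂ) c = d := by
      rw [← Complex.inv_eq_conj e3]
      exact inv_eq_of_mul_eq_one_right e1
    simp only [Representation.character]
    rw [h1, h2, LinearMap.map_smul, LinearMap.map_smul, LinearMap.trace_one, smul_eq_mul,
      smul_eq_mul, map_mul, e4]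
    simp
  | zero => simp
  | add a b _ _ ha hb => simp [ha, hb]
  | neg a _ ha => simp [ha]

lemma conj_vc {G : Type} [Group G] [Finite G] {φ : G → ℂ} (h : φ ∈ VC G) (g : G) :
    (starRingEnd ℂ) (φ g) = φ g⁻¹ := by
  have h1 := vc_le (VC.comap (Subgroup.zpowers g).subtype h)
  have hc : ∀ a b : Subgroup.zpowers g, a * b = b * a := by
    rintro ⟨_, i, rfl⟩ ⟨_, j, rfl⟩
    apply Subtype.ext
    exact zpow_mul_comm g i j
  exact conj_comm hc h1 ⟨g, Subgroup.mem_zpowers g⟩

lemma irr_mem {G : Type} [Group G] {χ : G → ℂ} (h : χ ∈ Irr G) : χ ∈ VC G := by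
  obtain ⟨V, _, _, _, ρ, -, rfl⟩ := h
  exact VC.char_mem ρ

lemma irr_orth {G : Type} [Group G] [Fintype G] {χ χ' : G → ℂ} (h : χ ∈ Irr G)
    (h' : χ' ∈ Irr G) :
    ∑ g, χ g * χ' g⁻¹ = if χ = χ' then (Fintype.card G : ℂ) else 0 := by
  have hG : (Nat.card G : ℂ) ≠ 0 := by exact_mod_cast (Nat.card_pos (α := G)).ne'
  let _ : Invertible (Nat.card G : ℂ) := invertibleOfNonzero hG
  obtain ⟨V, _, _, _, ρ, hi, rfl⟩ := h
  obtain ⟨W, _, _, _, σ, hj, rfl⟩ := h'
  split_ifs with e
  · rw [← e]
    have := ρ.char_orthonormal ρ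
    rw [if_pos ⟨Representation.Equiv.refl ρ⟩, inv_mul_eq_one₀ hG] at this
    rw [← this, Nat.card_eq_fintype_card]
  · have := ρ.char_orthonormal σ
    rw [if_neg (fun ⟨φ⟩ => e (Representation.char_iso φ).symm)] at this
    exact (mul_eq_zero.1 this).resolve_left (inv_ne_zero hG)

lemma irr_schur {G : Type} [Group G] [Fintype G] {χ : G → ℂ} (h : χ ∈ Irr G) :
    χ 1 ≠ 0 ∧ ∀ z : G → ℂ, (∀ a b, z (b * a * b⁻¹) = z a) →
      ∀ g, χ 1 * ∑ u, z u * χ (u * g) = (∑ u, z u * χ u) * χ g := by
  obtain ⟨V, _, _, _, ρ, hi, rfl⟩ := h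
  have := nontriv ρ
  refine ⟨?_, fun z hz g => ?_⟩
  · rw [Representation.char_one]
    exact_mod_cast (finrank_pos (R := ℂ) (M := V)).ne'
  · obtain ⟨c, hc⟩ := scalar ρ (∑ u, z u • ρ u) (by
      intro h
      rw [Finset.sum_mul, Finset.mul_sum, ← Equiv.sum_comp (MulAut.conj h).toEquiv]
      refine Finset.sum_congr rfl fun x _ => ?_
      change z (h * x * h⁻¹) • ρ (h * x * h⁻¹) * ρ h = _
      rw [hz, smul_mul_assoc, mul_smul_comm, ← map_mul, ← map_mul, inv_mul_cancel_right])
    have key : ∀ x, ∑ u, z u * ρ.character (u * x) = c * ρ.character x := by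
      intro x
      have e := congrArg (fun A => LinearMap.trace ℂ V (A * ρ x)) hc
      simp only [Finset.sum_mul, map_sum, smul_mul_assoc, map_smul, smul_eq_mul, one_mul,
        ← map_mul] at e
      exact e
    have k1 := key 1
    simp only [mul_one] at k1
    rw [key, k1]
    ring

lemma int_sq {ι : Type} (s : Finset ι) (n : ι → ℤ) (h : ∑ i ∈ s, n i * n i = 1) :
    ∃ j ∈ s, (n j = 1 ∨ n j = -1) ∧ ∀ i ∈ s, i ≠ j → n i = 0 := by
  obtain ⟨j, hj, hj0⟩ := Finset.exists_ne_zero_of_sum_ne_zero (h ▸ one_ne_zero)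
  rw [← Finset.add_sum_erase _ _ hj] at h
  have h1 : 0 ≤ ∑ i ∈ s.erase j, n i * n i := Finset.sum_nonneg fun i _ => mul_self_nonneg _
  have h2 : 0 < n j * n j := lt_of_le_of_ne (mul_self_nonneg _) (Ne.symm hj0)
  have h3 : n j * n j = 1 := by omega
  have h4 : ∑ i ∈ s.erase j, n i * n i = 0 := by omega
  rw [Finset.sum_eq_zero_iff_of_nonneg fun i _ => mul_self_nonneg _] at h4
  refine ⟨j, hj, mul_self_eq_one_iff.1 h3, fun i hi hij => ?_⟩
  exact mul_self_eq_zero.1 (h4 i (Finset.mem_erase.2 ⟨hij, hi⟩))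

lemma pm_irr {G : Type} [Group G] [Fintype G] {φ : G → ℂ} (h : φ ∈ VC G)
    (hn : ∑ g, φ g * (starRingEnd ℂ) (φ g) = Fintype.card G) :
    ∃ χ ∈ Irr G, φ = χ ∨ φ = -χ := by
  have hG : (Fintype.card G : ℂ) ≠ 0 := by exact_mod_cast Fintype.card_ne_zero
  simp only [conj_vc h] at hn
  have h1 : φ ∈ Submodule.span ℤ (Irr G) := by
    have := vc_le h
    rw [← Submodule.span_int_eq_addSubgroupClosure] at this
    exact this
  obtain ⟨n, s, hs, -, e⟩ := Submodule.mem_span_iff_exists_finset_subset.1 h1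
  have e1 : ∀ g, φ g = ∑ χ ∈ s, (n χ : ℂ) * χ g := by
    intro g
    rw [← e, Finset.sum_apply]
    simp
  have e2 : ∑ g, φ g * φ g⁻¹ = (∑ χ ∈ s, (n χ : ℂ) * n χ) * Fintype.card G := by
    simp only [e1, Finset.sum_mul_sum]
    rw [Finset.sum_comm, Finset.sum_mul]
    refine Finset.sum_congr rfl fun χ hχ => ?_
    rw [Finset.sum_comm]
    have : ∀ χ' ∈ s, ∑ g, (n χ : ℂ) * χ g * ((n χ' : ℂ) * χ' g⁻¹) =
        if χ = χ' then (n χ : ℂ) * n χ' * Fintype.card G else 0 := by
      intro χ' hχ'
      have e3 := irr_orth (hs hχ) (hs hχ')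
      calc ∑ g, (n χ : ℂ) * χ g * ((n χ' : ℂ) * χ' g⁻¹)
          = (n χ : ℂ) * n χ' * ∑ g, χ g * χ' g⁻¹ := by
            rw [Finset.mul_sum]
            exact Finset.sum_congr rfl fun g _ => by ring
        _ = _ := by
            rw [e3]
            split_ifs <;> simp
    rw [Finset.sum_congr rfl this, Finset.sum_ite_eq, if_pos hχ]
  rw [e2, mul_eq_right₀ hG] at hn
  have h2 : ∑ χ ∈ s, n χ * n χ = 1 := by exact_mod_cast hn
  obtain ⟨j, hj, hj1, hj0⟩ := int_sq s n h2
  refine ⟨j, hs hj, ?_⟩
  have e4 : φ = n j • j := by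
    rw [← e]
    exact Finset.sum_eq_single_of_mem j hj fun i hi hij => by rw [hj0 i hi hij, zero_smul]
  rcases hj1 with h | h
  · left
    rw [e4, h, one_smul]
  · right
    rw [e4, h, neg_one_smul]

end VCAux

theorem VC.push {G H : Type} [Group G] [Fintype G] [Group H] [Fintype H] (f : H →* G)
    {φ : H → ℂ} (h : φ ∈ VC H) :
    (fun g => (Fintype.card H : ℂ)⁻¹ * ∑ x : G, ∑ y : H, if x * f y * x⁻¹ = g then φ y else 0)
      ∈ VC G := by
  induction h using AddSubgroup.closure_induction with
  | mem χ hχ =>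
    obtain ⟨n, ρ, rfl⟩ := hχ
    let σ : Representation ℂ (G × H) (Fin n → ℂ) := ρ.comp (MonoidHom.snd G H)
    have := VCAux.avg_mem ((VCAux.perm f).tprod σ)
    convert this using 2 with g
    congr 1
    rw [Finset.sum_comm]
    refine Finset.sum_congr rfl fun y _ => ?_
    rw [Representation.char_tensor, Pi.mul_apply, VCAux.perm_char, Finset.sum_mul]
    refine Finset.sum_congr rfl fun x _ => ?_
    split_ifs
    · rw [one_mul]
      rfl
    · rw [zero_mul]
  | zero =>
    convert (VC G).zero_mem using 1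
    funext x
    simp
  | add a b _ _ ha hb =>
    convert (VC G).add_mem ha hb using 1
    funext g
    simp only [Pi.add_apply, ← mul_add, ← Finset.sum_add_distrib]
    congr 1
    refine Finset.sum_congr rfl fun x _ => Finset.sum_congr rfl fun y _ => ?_
    split_ifs <;> simp
  | neg a _ ha =>
    convert (VC G).neg_mem ha using 1
    funext g
    simp only [Pi.neg_apply, ← mul_neg, ← Finset.sum_neg_distrib]
    congr 1
    refine Finset.sum_congr rfl fun x _ => Finset.sum_congr rfl fun y _ => ?_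
    split_ifs <;> simp

theorem VC.norm_one {G : Type} [Group G] [Fintype G] {φ : G → ℂ} (h : φ ∈ VC G)
    (hn : ∑ g, φ g * (starRingEnd ℂ) (φ g) = Fintype.card G) :
    φ 1 ≠ 0 ∧ ∀ z : G → ℂ, (∀ a b, z (b * a * b⁻¹) = z a) →
      ∀ g, φ 1 * ∑ u, z u * φ (u * g) = (∑ u, z u * φ u) * φ g := by
  obtain ⟨χ, hχ, e | e⟩ := VCAux.pm_irr h hn
  · rw [e]
    exact VCAux.irr_schur hχ
  · obtain ⟨h1, h2⟩ := VCAux.irr_schur hχ
    rw [e]
    refine ⟨by simpa using h1, fun z hz g => ?_⟩
    simpa using h2 z hz g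

theorem VC.conv_inj {G : Type} [Group G] [Fintype G] {z ψ : G → ℂ}
    (hz : ∀ a b, z (b * a * b⁻¹) = z a) (hψ : ∀ a b, ψ (b * a * b⁻¹) = ψ a)
    (hne : ∀ φ ∈ VC G, ∑ g, φ g * (starRingEnd ℂ) (φ g) = Fintype.card G → ∑ u, z u * φ u ≠ 0)
    (h : ∀ g, ∑ u, z u * ψ (u * g) = 0) : ψ = 0 := by
  have hG : (Fintype.card G : ℂ) ≠ 0 := by exact_mod_cast Fintype.card_ne_zero
  have key : ∀ χ ∈ AddSubgroup.closure (VCAux.Irr G), ∀ g, ∑ u, ψ u⁻¹ * χ (u * g) = 0 := by
    intro χ hχ g
    induction hχ using AddSubgroup.closure_induction with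
    | mem χ hχ =>
      obtain ⟨h1, h2⟩ := VCAux.irr_schur hχ
      have hv := VCAux.irr_mem hχ
      have h3 : ∑ u, z u * χ u ≠ 0 := by
        apply hne χ hv
        simp only [VCAux.conj_vc hv]
        rw [VCAux.irr_orth hχ hχ, if_pos rfl]
      have h4 : ∑ u, ψ u⁻¹ * χ u = 0 := by
        apply mul_left_cancel₀ h3
        rw [mul_zero, Finset.mul_sum]
        have e1 : ∀ x, (∑ u, z u * χ u) * (ψ x⁻¹ * χ x) =
            χ 1 * ∑ u, z u * (ψ x⁻¹ * χ (u * x)) := by
          intro x
          have e2 : ∑ u, z u * (ψ x⁻¹ * χ (u * x)) = ψ x⁻¹ * ∑ u, z u * χ (u * x) := by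
            rw [Finset.mul_sum]
            exact Finset.sum_congr rfl fun u _ => by ring
          rw [e2]
          linear_combination (-ψ x⁻¹) * h2 z hz x
        simp only [e1]
        rw [← Finset.mul_sum, Finset.sum_comm]
        have e3 : ∀ u, ∑ x, z u * (ψ x⁻¹ * χ (u * x)) = ∑ y, z u * ψ (u * y) * χ y⁻¹ := by
          intro u
          rw [← Equiv.sum_comp ((Equiv.mulLeft u).trans (Equiv.inv G))]
          refine Finset.sum_congr rfl fun y _ => ?_
          simp only [Equiv.trans_apply, Equiv.coe_mulLeft, Equiv.inv_apply, inv_inv]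
          have : u * (u * y)⁻¹ = u * y⁻¹ * u⁻¹ := by group
          rw [this, VC.conj_inv hv]
          ring
        simp only [e3]
        rw [Finset.sum_comm]
        simp only [← Finset.sum_mul, h, zero_mul, Finset.sum_const_zero, mul_zero]
      have h5 := h2 (fun u => ψ u⁻¹) (fun a b => by
        have : (b * a * b⁻¹)⁻¹ = b * a⁻¹ * b⁻¹ := by group
        simp only [this, hψ]) g
      simp only [h4, zero_mul] at h5
      exact (mul_eq_zero.1 h5).resolve_left h1
    | zero => simp
    | add a b _ _ ha hb => simp [mul_add, Finset.sum_add_distrib, ha, hb]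
    | neg a _ ha => simp [ha]
  have hreg := VCAux.vc_le (VC.push (G := G) (H := Unit) 1 VC.one)
  funext g
  have k := key _ hreg g
  simp only [MonoidHom.one_apply, mul_one, mul_inv_cancel, Fintype.card_unit, Nat.cast_one,
    inv_one, one_mul, Finset.univ_unique, Finset.sum_const,
    Finset.card_univ, nsmul_eq_mul] at k
  rw [Finset.sum_eq_single g⁻¹] at k
  · simpa [hG] using k
  · intro u _ hu
    rw [if_neg (fun e => hu (eq_inv_of_mul_eq_one_left e.symm))]
    simp
  · simp

end Pool.Agent.H815Z
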